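import Pool.Agent.TH746.IR.Tri

/-!
Closed chains of reflections with at most two vertices at which the curvature does not vanish.
-/

set_option autoImplicit false

open MeasureTheory Set Filter Topology
open scoped InnerProductSpace ContDiff
open Pool.Agent.H721R2.Quart Pool.Agent.H721R2.Ivrii

namespace Pool.Agent.TH746.IR

open Pool.Agent.TH746 Pool.Agent.TH746.UM Pool.Agent.TH746.AL Pool.Agent.TH746.OB

variable {E Z : Type} [NormedAddCommGroup E] [InnerProductSpace ℝ E] [FiniteDimensional ℝ E]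
  [NormedAddCommGroup Z] [NormedSpace ℝ Z] [FiniteDimensional ℝ Z] {Ω : Set E} {n : ℕ}
  (C : VChn E Ω n Z) {z : Z}

omit [FiniteDimensional ℝ Z] in
theorem dx' {k : ℕ} (hk : k < n) (hz : z ∈ C.U) (ζ : Z) : fderiv ℝ (C.x (k + 1)) z ζ =
    fderiv ℝ (C.x k) z ζ + (C.L k z • fderiv ℝ (C.e k) z ζ +
      fderiv ℝ (C.L k) z ζ • C.e k z) := by
  have hL : DifferentiableAt ℝ (C.L k) z := (C.cL k hk z hz).differentiableAt (by simp)
  have he : DifferentiableAt ℝ (C.e k) z := (C.ce k hk.le z hz).differentiableAt (by simp)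
  have hx : DifferentiableAt ℝ (C.x k) z := (C.cx k hk.le z hz).differentiableAt (by simp)
  have h1 : HasFDerivAt (C.x (k + 1)) (fderiv ℝ (C.x k) z + (C.L k z • fderiv ℝ (C.e k) z +
      (fderiv ℝ (C.L k) z).smulRight (C.e k z))) z := by
    have h2 := hx.hasFDerivAt.add (hL.hasFDerivAt.smul he.hasFDerivAt)
    have h3 : C.x (k + 1) = fun z => C.x k z + C.L k z • C.e k z := funext (C.step k hk)
    rw [h3]
    exact h2
  rw [h1.fderiv]; rfl

omit [FiniteDimensional ℝ Z] in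
theorem de' {k : ℕ} (hk : k < n) (hz : z ∈ C.U) (ζ : Z)
    (h0 : fderiv ℝ (C.nu (k + 1)) z ζ = 0) : fderiv ℝ (C.e (k + 1)) z ζ =
    rf (C.nu (k + 1) z) (fderiv ℝ (C.e k) z ζ) := by
  have hn : DifferentiableAt ℝ (C.nu (k + 1)) z := (C.cn (k + 1) hk z hz).differentiableAt (by simp)
  have he : DifferentiableAt ℝ (C.e k) z := (C.ce k hk.le z hz).differentiableAt (by simp)
  have h1 : C.e (k + 1) = fun z => rf (C.nu (k + 1) z) (C.e k z) := funext (C.refl k hk)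
  rw [h1]
  have h2 := G3_rf_fderiv hn he ζ
  rw [h0, inner_zero_left, mul_zero, zero_smul, smul_zero, sub_zero, sub_zero] at h2
  exact h2

omit [FiniteDimensional ℝ Z] in
theorem dnu' {k : ℕ} (hk : k ≤ n) (hz : z ∈ C.U) (ζ : Z) (h0 : fderiv ℝ (C.x k) z ζ = 0) :
    fderiv ℝ (C.nu k) z ζ = 0 := by
  have hdf := C.df k hk z hz
  have hn : DifferentiableAt ℝ (fun y => dir (gradient (C.F k) y)) (C.x k z) :=
    (G2_contDiff_nu hdf.smooth hdf.grad).differentiableAt (by norm_num)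
  have hx : DifferentiableAt ℝ (C.x k) z := (C.cx k hk z hz).differentiableAt (by simp)
  have h1 : fderiv ℝ (C.nu k) z =
      (fderiv ℝ (fun y => dir (gradient (C.F k) y)) (C.x k z)).comp (fderiv ℝ (C.x k) z) :=
    fderiv_comp z hn hx
  rw [h1, ContinuousLinearMap.comp_apply, h0, map_zero]

omit [FiniteDimensional ℝ Z] in
theorem tr_in' {k : ℕ} (hk : k < n) (hz : z ∈ C.U) : ⟪C.nu (k + 1) z, C.e k z⟫_ℝ ≠ 0 := by
  intro h0
  apply C.tr (k + 1) hk z hz
  change ⟪C.nu (k + 1) z, _⟫_ℝ = 0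
  rw [C.refl k hk z]
  change ⟪C.nu (k + 1) z, rf (C.nu (k + 1) z) (C.e k z)⟫_ℝ = 0
  unfold rf
  rw [inner_sub_right, inner_smul_right, h0]
  ring

/-- the part of `X` orthogonal to the unit vector `e` -/
noncomputable def pj (e X : E) : E := X - ⟪e, X⟫_ℝ • e

omit [FiniteDimensional ℝ E] in
theorem pj_rf {ν e X : E} (hν : ⟪ν, ν⟫_ℝ = 1) (hX : ⟪ν, X⟫_ℝ = 0) :
    pj (rf ν e) X = rf ν (pj e X) := by
  have h1 : rf ν X = X := by unfold rf; rw [hX]; simp
  have h2 : ⟪rf ν e, X⟫_ℝ = ⟪e, X⟫_ℝ := by rw [G3_rf_sym, h1]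
  unfold pj
  rw [h2]
  unfold rf
  rw [inner_sub_right, real_inner_smul_right, hX]
  module

omit [FiniteDimensional ℝ Z] in
/-- The variation which focuses at the vertex `m`. -/
theorem duo_var {m : ℕ} (hm0 : 0 < m) (hmn : m < n) (hz : z ∈ C.U)
    (hc : ∀ k, 1 ≤ k → k < n → k ≠ m → Curv Ω (C.x k z) 0) {α : E}
    (hα : ⟪C.e 0 z, α⟫_ℝ = 0) :
    ∃ (ζ : Z) (s : ℝ), s * ⟪C.nu 0 z, C.e 0 z⟫_ℝ = len C m z * ⟪C.nu 0 z, α⟫_ℝ ∧
      fderiv ℝ (C.x 0) z ζ = -(len C m z • α) + s • C.e 0 z ∧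
      fderiv ℝ (C.e 0) z ζ = α ∧ fderiv ℝ (C.x m) z ζ = 0 ∧
      ∀ k < n, pj (C.e k z) (fderiv ℝ (C.x k) z ζ) =
        (len C k z - len C m z) • fderiv ℝ (C.e k) z ζ ∧
        ⟪fderiv ℝ (C.e k) z ζ, fderiv ℝ (C.e k) z ζ⟫_ℝ = ⟪α, α⟫_ℝ := by
  have ht0 : ⟪C.nu 0 z, C.e 0 z⟫_ℝ ≠ 0 := C.tr 0 (Nat.zero_le _) z hz
  obtain ⟨s, hs⟩ : ∃ s, s = len C m z * ⟪C.nu 0 z, α⟫_ℝ / ⟪C.nu 0 z, C.e 0 z⟫_ℝ := ⟨_, rfl⟩
  have hs' : s * ⟪C.nu 0 z, C.e 0 z⟫_ℝ = len C m z * ⟪C.nu 0 z, α⟫_ℝ := by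
    rw [hs]; field_simp
  obtain ⟨ζ, h1, h2⟩ := C.surj 0 (Nat.zero_le _) z hz (-(len C m z • α) + s • C.e 0 z) α
    (by
      change ⟪C.nu 0 z, _⟫_ℝ = 0
      rw [inner_add_right, inner_neg_right, real_inner_smul_right, real_inner_smul_right]
      linarith) hα
  have he := C.ee 0 (Nat.zero_le _) z hz
  have hstep : ∀ k < n, pj (C.e k z) (fderiv ℝ (C.x k) z ζ) =
      (len C k z - len C m z) • fderiv ℝ (C.e k) z ζ →
      pj (C.e k z) (fderiv ℝ (C.x (k + 1)) z ζ) =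
      (len C (k + 1) z - len C m z) • fderiv ℝ (C.e k) z ζ := by
    intro k hk hk2
    have hek := C.ee k hk.le z hz
    have hp := e_perp C hk.le hz ζ
    have hl : len C (k + 1) z = len C k z + C.L k z := by
      unfold len; rw [Finset.sum_range_succ]
    unfold pj at hk2 ⊢
    rw [dx' C hk hz, hl, inner_add_right, inner_add_right, real_inner_smul_right,
      real_inner_smul_right, hp, hek]
    have e1 : fderiv ℝ (C.x k) z ζ = ⟪C.e k z, fderiv ℝ (C.x k) z ζ⟫_ℝ • C.e k z +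
        (len C k z - len C m z) • fderiv ℝ (C.e k) z ζ := by rw [← hk2]; abel
    have e2 : ∀ q : ℝ, fderiv ℝ (C.x k) z ζ + (C.L k z • fderiv ℝ (C.e k) z ζ +
        fderiv ℝ (C.L k) z ζ • C.e k z) - (q + (C.L k z * 0 + fderiv ℝ (C.L k) z ζ * 1)) •
        C.e k z = fderiv ℝ (C.x k) z ζ - q • C.e k z + C.L k z • fderiv ℝ (C.e k) z ζ := by
      intro q; module
    rw [e2, hk2]
    module
  have hxm : ∀ k, k + 1 = m → pj (C.e k z) (fderiv ℝ (C.x k) z ζ) =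
      (len C k z - len C m z) • fderiv ℝ (C.e k) z ζ → fderiv ℝ (C.x m) z ζ = 0 := by
    intro k hk hk2
    have h3 := hstep k (by omega) hk2
    rw [hk, sub_self, zero_smul] at h3
    unfold pj at h3
    have h4 := sub_eq_zero.1 h3
    have h5 := C.tan m hmn.le z hz ζ
    change ⟪C.nu m z, _⟫_ℝ = 0 at h5
    rw [h4, real_inner_smul_right] at h5
    have h6 : ⟪C.nu m z, C.e k z⟫_ℝ ≠ 0 := by
      have := tr_in' C (k := k) (by omega) hz
      rwa [hk] at this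
    rw [h4, (mul_eq_zero.1 h5).resolve_right h6, zero_smul]
  have hind : ∀ k < n, pj (C.e k z) (fderiv ℝ (C.x k) z ζ) =
        (len C k z - len C m z) • fderiv ℝ (C.e k) z ζ ∧
        ⟪fderiv ℝ (C.e k) z ζ, fderiv ℝ (C.e k) z ζ⟫_ℝ = ⟪α, α⟫_ℝ := by
    intro k
    induction k with
    | zero =>
      intro _
      have hl : len C 0 z = 0 := by unfold len; simp
      rw [h1, h2, hl]
      refine ⟨?_, rfl⟩
      unfold pj
      rw [inner_add_right, inner_neg_right, real_inner_smul_right, real_inner_smul_right, hα, he]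
      module
    | succ k ih =>
      intro hk
      obtain ⟨i1, i2⟩ := ih (by omega)
      have hn0 : fderiv ℝ (C.nu (k + 1)) z ζ = 0 := by
        by_cases hkm : k + 1 = m
        · apply dnu' C hk.le hz
          rw [hkm]
          exact hxm k hkm i1
        · have := C.kap hk.le hz (hc (k + 1) (by omega) hk hkm) ζ
          rw [this, zero_smul]
      have hde := de' C (k := k) (by omega) hz ζ hn0
      have hnn := C.nu_unit hk.le hz
      refine ⟨?_, ?_⟩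
      · have h3 : C.e (k + 1) z = rf (C.nu (k + 1) z) (C.e k z) := C.refl k (by omega) z
        rw [h3, pj_rf hnn (C.tan (k + 1) hk.le z hz ζ), hstep k (by omega) i1, hde]
        unfold rf
        rw [real_inner_smul_right]
        module
      · rw [hde, G3_rf_inner hnn, i2]
  refine ⟨ζ, s, hs', h1, h2, ?_, hind⟩
  obtain ⟨k, rfl⟩ : ∃ k, m = k + 1 := ⟨m - 1, by omega⟩
  exact hxm k rfl (hind k (by omega)).1

theorem duo_null (hd : 2 ≤ Module.finrank ℝ E) [MeasurableSpace Z] [BorelSpace Z]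
    (μ : Measure Z) [μ.IsAddHaarMeasure] {m : ℕ} (hm0 : 0 < m) (hmn : m < n) :
    μ {z | z ∈ C.U ∧ C.x n z = C.x 0 z ∧ C.e n z = C.e 0 z ∧
      (∀ k, 1 ≤ k → k < n → k ≠ m → Curv Ω (C.x k z) 0) ∧ len C n z ≠ 0} = 0 := by
  obtain ⟨A, hA⟩ : ∃ A : Set Z, A = {z | z ∈ C.U ∧ C.x n z = C.x 0 z ∧ C.e n z = C.e 0 z ∧
    (∀ k, 1 ≤ k → k < n → k ≠ m → Curv Ω (C.x k z) 0) ∧ len C n z ≠ 0} := ⟨_, rfl⟩
  rw [← hA]
  have hAm : ∀ z ∈ A, z ∈ C.U ∧ C.x n z = C.x 0 z ∧ C.e n z = C.e 0 z ∧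
    (∀ k, 1 ≤ k → k < n → k ≠ m → Curv Ω (C.x k z) 0) ∧ len C n z ≠ 0 := by
    intro z hz; rw [hA] at hz; exact hz
  obtain ⟨B1, hB1, f1⟩ := exists_appr μ A
  obtain ⟨B2, hB2, f2⟩ := exists_appr μ (A \ B1)
  obtain ⟨B3, hB3, f3⟩ := exists_appr μ ((A \ B1) \ B2)
  refine measure_mono_null (t := B1 ∪ (B2 ∪ B3)) ?_
    (measure_union_null hB1 (measure_union_null hB2 hB3))
  have D : ∀ {k : ℕ}, k ≤ n → ∀ z ∈ A, DifferentiableAt ℝ (C.x k) z ∧
      DifferentiableAt ℝ (C.e k) z ∧ DifferentiableAt ℝ (C.nu k) z := fun hk z hz =>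
    ⟨(C.cx _ hk z (hAm z hz).1).differentiableAt (by simp),
      (C.ce _ hk z (hAm z hz).1).differentiableAt (by simp),
      (C.cn _ hk z (hAm z hz).1).differentiableAt (by simp)⟩
  have hperp : ∀ z ∈ A, ∃ α : E, ⟪C.e 0 z, α⟫_ℝ = 0 ∧ α ≠ 0 := by
    intro z hz
    have he := C.ee 0 (Nat.zero_le _) z (hAm z hz).1
    obtain ⟨Y, hY⟩ : ∃ Y : E, Y ∉ Submodule.span ℝ {C.e 0 z} := by
      by_contra hcon
      push Not at hcon
      have h1 : Submodule.span ℝ {C.e 0 z} = ⊤ := Submodule.eq_top_iff'.2 hcon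
      have h2 := finrank_span_singleton (K := ℝ) (v := C.e 0 z) (by
        intro h0; rw [h0, inner_zero_left] at he; exact zero_ne_one he)
      rw [h1, finrank_top] at h2
      omega
    refine ⟨Y - ⟪C.e 0 z, Y⟫_ℝ • C.e 0 z, ?_, ?_⟩
    · rw [inner_sub_right, inner_smul_right, he]; ring
    · intro h0
      apply hY
      rw [Submodule.mem_span_singleton]
      exact ⟨⟪C.e 0 z, Y⟫_ℝ, (sub_eq_zero.1 h0).symm⟩
  -- first order
  have hX : ∀ z ∈ A \ B1, ∀ ζ, fderiv ℝ (C.x n) z ζ = fderiv ℝ (C.x 0) z ζ := by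
    intro z hz ζ
    obtain ⟨r, y, H, hy⟩ := f1 z hz ζ
    have h3 := (D (k := n) le_rfl z hz.1).1
    have h0 := (D (k := 0) (Nat.zero_le _) z hz.1).1
    have h1 := appr_zero H (f := fun z => C.x n z - C.x 0 z) (h3.sub h0)
      (sub_eq_zero.2 (hAm z hz.1).2.1) (fun j => sub_eq_zero.2 (hAm _ (hy j)).2.1)
    rw [fderiv_fun_sub h3 h0] at h1
    exact sub_eq_zero.1 h1
  have hlen : ∀ z ∈ A \ B1, ∀ ζ, fderiv ℝ (len C n) z ζ = 0 := by
    intro z hz ζ
    rw [dlen C le_rfl (hAm z hz.1).1, hX z hz, (hAm z hz.1).2.2.1, sub_self]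
  have hhalf : ∀ z ∈ A \ B1, 2 * len C m z - len C n z = 0 := by
    intro z hz
    obtain ⟨hU, hx, he, hc, hl⟩ := hAm z hz.1
    obtain ⟨α, hα, hα0⟩ := hperp z hz.1
    obtain ⟨ζ, s, -, h1, h2, -, h4⟩ := duo_var C hm0 hmn hU hc hα
    obtain ⟨N, rfl⟩ : ∃ N, n = N + 1 := ⟨n - 1, by omega⟩
    obtain ⟨i1, i2⟩ := h4 N (Nat.lt_succ_self N)
    have hee := C.ee 0 (Nat.zero_le _) z hU
    have hnn := C.nu_unit (le_refl (N + 1)) hU
    have hek := C.ee N (Nat.le_succ N) z hU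
    have hp := e_perp C (Nat.le_succ N) hU ζ
    have hll : len C (N + 1) z = len C N z + C.L N z := by
      unfold len; rw [Finset.sum_range_succ]
    have g1 : pj (C.e N z) (fderiv ℝ (C.x (N + 1)) z ζ) =
        (len C (N + 1) z - len C m z) • fderiv ℝ (C.e N) z ζ := by
      unfold pj at i1 ⊢
      rw [dx' C (Nat.lt_succ_self N) hU, hll, inner_add_right, inner_add_right,
        real_inner_smul_right, real_inner_smul_right, hp, hek]
      have e2 : ∀ q : ℝ, fderiv ℝ (C.x N) z ζ + (C.L N z • fderiv ℝ (C.e N) z ζ +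
          fderiv ℝ (C.L N) z ζ • C.e N z) - (q + (C.L N z * 0 + fderiv ℝ (C.L N) z ζ * 1)) •
          C.e N z = fderiv ℝ (C.x N) z ζ - q • C.e N z + C.L N z • fderiv ℝ (C.e N) z ζ := by
        intro q; module
      rw [e2, i1]
      module
    have g2 : pj (C.e (N + 1) z) (fderiv ℝ (C.x (N + 1)) z ζ) =
        rf (C.nu (N + 1) z) (pj (C.e N z) (fderiv ℝ (C.x (N + 1)) z ζ)) := by
      have h3 : C.e (N + 1) z = rf (C.nu (N + 1) z) (C.e N z) :=
        C.refl N (Nat.lt_succ_self N) z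
      rw [h3, pj_rf hnn (C.tan (N + 1) le_rfl z hU ζ)]
    have g3 : pj (C.e (N + 1) z) (fderiv ℝ (C.x (N + 1)) z ζ) = -(len C m z • α) := by
      rw [hX z hz, he, h1]
      unfold pj
      rw [inner_add_right, inner_neg_right, real_inner_smul_right, real_inner_smul_right, hα, hee]
      module
    rw [g3, g1] at g2
    have g4 := congrArg (fun v => ⟪v, v⟫_ℝ) g2
    simp only [G3_rf_inner hnn, inner_neg_left, inner_neg_right, real_inner_smul_left,
      real_inner_smul_right, i2, neg_neg] at g4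
    have hαα : ⟪α, α⟫_ℝ ≠ 0 := (real_inner_self_pos.2 hα0).ne'
    have g5 : (len C (N + 1) z * (2 * len C m z - len C (N + 1) z)) * ⟪α, α⟫_ℝ = 0 := by
      linear_combination g4
    have g6 := (mul_eq_zero.1 g5).resolve_right hαα
    exact (mul_eq_zero.1 g6).resolve_left hl
  have hld : ∀ {k : ℕ}, k ≤ n → ∀ z ∈ A, DifferentiableAt ℝ (len C k) z := fun hk z hz =>
    (len_cd C hk (hAm z hz).1).differentiableAt (by simp)
  have hlm : ∀ z ∈ (A \ B1) \ B2, ∀ ζ, fderiv ℝ (len C m) z ζ = 0 := by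
    intro z hz ζ
    obtain ⟨r, y, H, hy⟩ := f2 z hz ζ
    have h3 := hld hmn.le z hz.1.1
    have h0 := hld le_rfl z hz.1.1
    have h1 := appr_zero H (f := fun z => 2 * len C m z - len C n z) ((h3.const_mul 2).sub h0)
      (hhalf z hz.1) (fun j => hhalf _ (hy j))
    rw [fderiv_fun_sub (h3.const_mul 2) h0, fderiv_const_mul h3] at h1
    have h4 := hlen z hz.1 ζ
    simp only [sub_apply, smul_apply, smul_eq_mul] at h1
    rw [h4] at h1
    linarith
  -- normal incidence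
  have hnorm : ∀ z ∈ (A \ B1) \ B2, C.e 0 z - ⟪C.nu 0 z, C.e 0 z⟫_ℝ • C.nu 0 z = 0 := by
    intro z hz
    obtain ⟨hU, hx, he, hc, hl⟩ := hAm z hz.1.1
    have hee := C.ee 0 (Nat.zero_le _) z hU
    have hnn := C.nu_unit (Nat.zero_le n) hU
    obtain ⟨c, hcc⟩ : ∃ c, c = ⟪C.nu 0 z, C.e 0 z⟫_ℝ := ⟨_, rfl⟩
    have hcc' : ⟪C.e 0 z, C.nu 0 z⟫_ℝ = c := by rw [real_inner_comm]; exact hcc.symm
    obtain ⟨ζ, s, hs, h1, h2, h3, -⟩ := duo_var C hm0 hmn hU hc
      (α := C.nu 0 z - c • C.e 0 z)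
      (by rw [inner_sub_right, real_inner_smul_right, hee, hcc']; ring)
    have h5 := hlm z hz ζ
    rw [dlen C hmn.le hU, h3, inner_zero_right, h1, inner_add_right, inner_neg_right,
      real_inner_smul_right, real_inner_smul_right, hee, inner_sub_right, real_inner_smul_right,
      hee, hcc'] at h5
    have hs0 : s = 0 := by linarith
    rw [hs0, zero_mul, inner_sub_right, real_inner_smul_right, hnn, ← hcc] at hs
    have hlm0 : len C m z ≠ 0 := by
      intro h0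
      have := hhalf z hz.1
      rw [h0] at this
      exact hl (by linarith)
    have h6 : 1 - c * c = 0 := (mul_eq_zero.1 hs.symm).resolve_left hlm0
    rw [← hcc]
    have h7 : ⟪C.e 0 z - c • C.nu 0 z, C.e 0 z - c • C.nu 0 z⟫_ℝ = 0 := by
      rw [inner_sub_left, inner_sub_right, inner_sub_right, real_inner_smul_left,
        real_inner_smul_left, real_inner_smul_right, real_inner_smul_right, hee, hnn, hcc', ← hcc]
      linarith
    exact inner_self_eq_zero.1 h7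
  intro z hz
  by_contra hcon
  have h1 : z ∉ B1 := fun h => hcon (Or.inl h)
  have h2 : z ∉ B2 := fun h => hcon (Or.inr (Or.inl h))
  have h3 : z ∉ B3 := fun h => hcon (Or.inr (Or.inr h))
  have hz3 : z ∈ (A \ B1) \ B2 := ⟨⟨hz, h1⟩, h2⟩
  have hU := (hAm z hz).1
  have hn := C.nu_unit (Nat.zero_le n) hU
  have ht0 := hnorm z hz3
  obtain ⟨α, hα, hα0⟩ := hperp z hz
  obtain ⟨ζ, g1, g3⟩ := C.surj 0 (Nat.zero_le _) z hU 0 α (inner_zero_right _) hα
  have g2 := dnu' C (Nat.zero_le _) hU ζ g1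
  obtain ⟨r, y, H, hy⟩ := f3 z ⟨hz3, h3⟩ ζ
  have dn0 := (D (k := 0) (Nat.zero_le _) z hz).2.2
  have de0 := (D (k := 0) (Nat.zero_le _) z hz).2.1
  have hfd : DifferentiableAt ℝ (fun z => C.e 0 z - ⟪C.nu 0 z, C.e 0 z⟫_ℝ • C.nu 0 z) z :=
    de0.sub ((dn0.inner ℝ de0).smul dn0)
  have h4 := appr_zero H hfd ht0 (fun j => hnorm _ (hy j))
  have hen : C.e 0 z = ⟪C.nu 0 z, C.e 0 z⟫_ℝ • C.nu 0 z := sub_eq_zero.1 ht0
  have hnα : ⟪C.nu 0 z, α⟫_ℝ = 0 := by
    rw [hen, real_inner_smul_left] at hα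
    exact (mul_eq_zero.1 hα).resolve_left (C.tr 0 (Nat.zero_le _) z hU)
  have pc := (path' dn0 ζ).inner ℝ (path' de0 ζ)
  have pt := (path' de0 ζ).sub (pc.smul (path' dn0 ζ))
  have h5 := (path' hfd ζ).unique pt
  rw [h4, g2, g3, smul_zero, inner_zero_left, add_zero, zero_smul, add_zero, hnα, zero_smul,
    add_zero, sub_zero] at h5
  exact hα0 h5.symm

end Pool.Agent.TH746.IR
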