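import Pool.Agent.TH746.IR.Tri

/-!
Rays of invisibility with three reflections: the final statement.
-/

set_option autoImplicit false

open MeasureTheory Set Filter Topology
open scoped InnerProductSpace ContDiff
open Pool.Agent.H721R2.Quart Pool.Agent.H721R2.Ivrii

namespace Pool.Agent.TH746.IR

open Pool.Agent.TH746 Pool.Agent.TH746.UM Pool.Agent.TH746.AL Pool.Agent.TH746.OB

variable {d : ℕ}

/-- The oriented lines (given by their direction and by their point nearest to the origin) which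
are rays of invisibility of the body `B` with at most three reflections, at points near which the
boundary is of class `C^∞`. -/
def InvThree (B : Set (EuclideanSpace ℝ (Fin d))) :
    Set (EuclideanSpace ℝ (Fin d) × EuclideanSpace ℝ (Fin d)) :=
  {z | ∃ n ≤ 3, ∃ (A u : ℕ → EuclideanSpace ℝ (Fin d)), InvRay B n z.1 z.2 A u ∧
    ∀ i < n, SmoothAt Bᶜ (A i)}

theorem not_one {B : Set (EuclideanSpace ℝ (Fin d))} {y v : EuclideanSpace ℝ (Fin d)}
    {A u : ℕ → EuclideanSpace ℝ (Fin d)} (h : InvRay B 1 y v A u) : False :=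
  h.mirror.ne h.out

theorem not_two {B : Set (EuclideanSpace ℝ (Fin d))} {y v : EuclideanSpace ℝ (Fin d)}
    {A u : ℕ → EuclideanSpace ℝ (Fin d)} (h : InvRay B 2 y v A u) : False := by
  obtain ⟨s0, hs0, hfree⟩ := h.first
  obtain ⟨s1, hs1, -⟩ := h.last
  have hvv : ⟪v, v⟫_ℝ = 1 := by rw [real_inner_self_eq_norm_sq, h.unit]; norm_num
  have hu0 : ⟪u 0, u 0⟫_ℝ = 1 := h.mirror.unit hvv
  have hst := h.step 0 (by norm_num)
  obtain ⟨F, hF, -⟩ := step_mirror hst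
  obtain ⟨t, ht, hq, -⟩ := hst
  simp only [zero_add] at hq hF
  simp only [Nat.add_one_sub_one] at hs1
  have h1 : t • u 0 = (s1 - s0) • v := by
    have : t • u 0 = A 1 - A 0 := by rw [hq]; abel
    rw [this, hs1, hs0]; module
  have h2 : t = (s1 - s0) * ⟪v, u 0⟫_ℝ := by
    have := congrArg (fun w => ⟪w, u 0⟫_ℝ) h1
    simp only [real_inner_smul_left, hu0, mul_one] at this
    exact this
  have h3 : t ^ 2 = (s1 - s0) ^ 2 := by
    have := congrArg (fun w => ⟪w, w⟫_ℝ) h1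
    simp only [real_inner_smul_left, real_inner_smul_right, hu0, hvv, mul_one] at this
    linarith
  have h4 : s1 < s0 := by
    by_contra hcon
    have h5 : t = s1 - s0 := by
      have : (t - (s1 - s0)) * (t + (s1 - s0)) = 0 := by linear_combination h3
      rcases mul_eq_zero.1 this with h | h <;> linarith
    rw [h5] at h1
    have h6 : s1 - s0 ≠ 0 := by rw [← h5]; exact ht.ne'
    exact h.mirror.ne (smul_right_injective _ h6 h1)
  have h5 : A 1 ∉ B := by rw [hs1]; exact hfree s1 h4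
  have h6 := hF.mem.self_of_nhds
  rw [hF.zero] at h6
  exact absurd (h6.1 h5) (lt_irrefl _)

/-- The closed chains of three reflections. -/
def VSet3 (Ω : Set (EuclideanSpace ℝ (Fin d))) :
    Set ((ℕ → EuclideanSpace ℝ (Fin d)) × (ℕ → EuclideanSpace ℝ (Fin d))) :=
  {w | VOrb Ω w.1 w.2 ∧ (∀ k, SmoothAt Ω (w.1 k)) ∧ w.1 3 = w.1 0 ∧ w.2 3 = w.2 0 ∧
    ⟪w.1 1 - w.1 0, w.2 0⟫_ℝ ≠ 0 ∧ ⟪w.1 2 - w.1 1, w.2 1⟫_ℝ ≠ 0}

theorem vset3_null (hd : 2 ≤ d) (Ω : Set (EuclideanSpace ℝ (Fin d))) {m : ℕ}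
    (hm : m ≤ 3) : μH[((2 * d - 2 : ℕ) : ℝ)] ((fun w : (ℕ → EuclideanSpace ℝ (Fin d)) ×
      (ℕ → EuclideanSpace ℝ (Fin d)) => (w.1 m, w.2 m)) '' VSet3 Ω) = 0 := by
  apply null_of_locally_null
  rintro ⟨p, u⟩ ⟨hor, hs, -⟩
  obtain ⟨a, b, C, ha, hb, -, hev⟩ := exists_vchn (n := 3) hor hs
  have hfr : Module.finrank ℝ ((ℝ ∙ a)ᗮ × (ℝ ∙ b)ᗮ) = 2 * d - 2 := by
    have h1 := Submodule.finrank_add_finrank_orthogonal (ℝ ∙ a)
    have h2 := Submodule.finrank_add_finrank_orthogonal (ℝ ∙ b)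
    rw [finrank_span_singleton ha, finrank_euclideanSpace_fin] at h1
    rw [finrank_span_singleton hb, finrank_euclideanSpace_fin] at h2
    rw [Module.finrank_prod]
    omega
  have h0 := tri_null C (by rw [finrank_euclideanSpace_fin]; exact hd)
    (μH[Module.finrank ℝ ((ℝ ∙ a)ᗮ × (ℝ ∙ b)ᗮ)])
  obtain ⟨A, hA⟩ : ∃ A, A = {z | z ∈ C.U ∧ C.x 3 z = C.x 0 z ∧ C.e 3 z = C.e 0 z ∧
    C.L 0 z ≠ 0 ∧ C.L 1 z ≠ 0} := ⟨_, rfl⟩
  rw [← hA, hfr] at h0
  refine ⟨(fun z => (C.x m z, C.e m z)) '' A, ?_, ?_⟩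
  · refine OB.img_null (Nat.cast_nonneg _) (fun z hz => ?_) h0
    rw [hA] at hz
    exact ((C.cx m hm z hz.1).prodMk (C.ce m hm z hz.1)).of_le (by norm_cast)
  · filter_upwards [hev] with w hw hor'
    obtain ⟨z, hzU, hz⟩ := hw hor'.1
    obtain ⟨h1, h2, h3, h4, h5, h6⟩ := hor'
    have hL : ∀ k, k < 3 → C.L k z = ⟪w.1 (k + 1) - w.1 k, w.2 k⟫_ℝ := by
      intro k hk
      rw [← (hz (k + 1) hk).1, ← (hz k hk.le).1, ← (hz k hk.le).2, C.step k hk z,
        add_sub_cancel_left, real_inner_smul_left, C.ee k hk.le z hzU, mul_one]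
    refine ⟨z, ?_, ?_⟩
    · rw [hA]
      refine ⟨hzU, ?_, ?_, ?_, ?_⟩
      · rw [(hz 3 le_rfl).1, (hz 0 (Nat.zero_le _)).1]
        exact h3
      · rw [(hz 3 le_rfl).2, (hz 0 (Nat.zero_le _)).2]
        exact h4
      · rw [hL 0 (by norm_num)]
        exact h5
      · rw [hL 1 (by norm_num)]
        exact h6
    · simp only
      rw [(hz m hm).1, (hz m hm).2]

theorem invThree_null (hd : 2 ≤ d) (B : Set (EuclideanSpace ℝ (Fin d))) :
    μH[((2 * d - 2 : ℕ) : ℝ)] (InvThree B) = 0 := by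
  obtain ⟨G, hG⟩ : ∃ G : EuclideanSpace ℝ (Fin d) × EuclideanSpace ℝ (Fin d) →
      EuclideanSpace ℝ (Fin d) × EuclideanSpace ℝ (Fin d),
    G = fun z => (z.1 - ⟪z.1, z.2⟫_ℝ • z.2, z.2) := ⟨_, rfl⟩
  have hGc : ContDiff ℝ 1 G := by
    rw [hG]
    exact (contDiff_fst.sub ((contDiff_fst.inner ℝ contDiff_snd).smul contDiff_snd)).prodMk
      contDiff_snd
  have hN : InvThree B ⊆ {z | ∃ (A u : ℕ → EuclideanSpace ℝ (Fin d)),
      InvRay B 3 z.1 z.2 A u ∧ ∀ i < 3, SmoothAt Bᶜ (A i)} := by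
    rintro z ⟨n, hn, A, u, h, hs⟩
    have hpos := h.pos
    interval_cases n
    · exact (not_one h).elim
    · exact (not_two h).elim
    · exact ⟨A, u, h, hs⟩
  refine measure_mono_null hN ?_
  refine measure_mono_null (t := G ''
    ((fun w : (ℕ → EuclideanSpace ℝ (Fin d)) × (ℕ → EuclideanSpace ℝ (Fin d)) =>
      (w.1 2, w.2 2)) '' VSet3 Bᶜ)) ?_
    (OB.img_null (Nat.cast_nonneg _) (fun z _ => hGc.contDiffAt) (vset3_null hd Bᶜ (by norm_num)))
  rintro ⟨y, v⟩ ⟨A, u, h, hs⟩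
  obtain ⟨c, hc⟩ : ∃ c : ℕ → ℕ, c = fun i => (i + 0) % 3 := ⟨_, rfl⟩
  obtain ⟨h1, -⟩ := ray_chain h (j := 0) (by norm_num) c hc
  have hun := h1.units
  have c0 : c 0 = 0 := by rw [hc]
  have c1 : c 1 = 1 := by rw [hc]
  have c2 : c 2 = 2 := by rw [hc]
  have c3 : c 3 = 0 := by rw [hc]
  have hcn : ∀ i, c i < 3 := fun i => by rw [hc]; exact Nat.mod_lt _ (by norm_num)
  refine ⟨_, ⟨(fun i => A (c i), fun i => u (c i)), ⟨h1, fun k => hs _ (hcn k), ?_, ?_,
    ?_, ?_⟩, rfl⟩, ?_⟩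
  · change A (c 3) = A (c 0)
    rw [c3, c0]
  · change u (c 3) = u (c 0)
    rw [c3, c0]
  · change ⟪A (c 1) - A (c 0), u (c 0)⟫_ℝ ≠ 0
    have g := hun 0
    simp only [c0] at g
    rw [c1, c0]
    obtain ⟨t, ht, hq, -⟩ := h.step 0 (by norm_num)
    simp only [zero_add] at hq
    rw [hq, add_sub_cancel_left, real_inner_smul_left, g, mul_one]
    exact ht.ne'
  · change ⟪A (c 2) - A (c 1), u (c 1)⟫_ℝ ≠ 0
    have g := hun 1
    simp only [c1] at g
    rw [c2, c1]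
    obtain ⟨t, ht, hq, -⟩ := h.step 1 (by norm_num)
    simp only [Nat.reduceAdd] at hq
    rw [hq, add_sub_cancel_left, real_inner_smul_left, g, mul_one]
    exact ht.ne'
  · obtain ⟨s1, hs1, -⟩ := h.last
    have hvv : ⟪v, v⟫_ℝ = 1 := by
      rw [real_inner_self_eq_norm_sq, h.unit]; norm_num
    have hout := h.out
    have hperp := h.perp
    simp only [Nat.add_one_sub_one] at hs1 hout hperp
    rw [hG]
    simp only [c2]
    rw [hs1, hout, inner_add_left, real_inner_smul_left, hvv, hperp]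
    simp

end Pool.Agent.TH746.IR
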