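import Pool.Agent.TH746.IR.Duo
import Pool.Agent.TH746.IR.Tri3

/-!
Rays of invisibility with at most two reflections at points where the curvature does not vanish.
-/

set_option autoImplicit false

open MeasureTheory Set Filter Topology
open scoped InnerProductSpace ContDiff
open Pool.Agent.H721R2.Quart Pool.Agent.H721R2.Ivrii

namespace Pool.Agent.TH746.IR

open Pool.Agent.TH746 Pool.Agent.TH746.UM Pool.Agent.TH746.AL Pool.Agent.TH746.OB

variable {d : ℕ}

/-- The oriented lines (given by their direction and by their point nearest to the origin) which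
are rays of invisibility of the body `B`, with any number of reflections, all of them at points
near which the boundary is of class `C^∞`, at most two of them being at points at which the second
fundamental form of the boundary does not vanish. -/
def InvTwo (B : Set (EuclideanSpace ℝ (Fin d))) :
    Set (EuclideanSpace ℝ (Fin d) × EuclideanSpace ℝ (Fin d)) :=
  {z | ∃ (n : ℕ) (A u : ℕ → EuclideanSpace ℝ (Fin d)), InvRay B n z.1 z.2 A u ∧
    (∀ i < n, SmoothAt Bᶜ (A i)) ∧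
    ∃ i < n, ∃ j < n, ∀ k < n, k ≠ i → k ≠ j → Curv Bᶜ (A k) 0}

/-- The closed chains with reflections at flat points but the first one and the one of number
`m`. -/
def VSet2 (Ω : Set (EuclideanSpace ℝ (Fin d))) (n m : ℕ) :
    Set ((ℕ → EuclideanSpace ℝ (Fin d)) × (ℕ → EuclideanSpace ℝ (Fin d))) :=
  {w | VOrb Ω w.1 w.2 ∧ (∀ k, SmoothAt Ω (w.1 k)) ∧ w.1 n = w.1 0 ∧ w.2 n = w.2 0 ∧
    (∀ k, 1 ≤ k → k < n → k ≠ m → Curv Ω (w.1 k) 0) ∧
    ∑ k ∈ Finset.range n, ⟪w.1 (k + 1) - w.1 k, w.2 k⟫_ℝ ≠ 0}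

theorem vset2_null (hd : 2 ≤ d) (Ω : Set (EuclideanSpace ℝ (Fin d))) {n m l : ℕ} (hm0 : 0 < m)
    (hmn : m < n) (hl : l ≤ n) : μH[((2 * d - 2 : ℕ) : ℝ)]
      ((fun w : (ℕ → EuclideanSpace ℝ (Fin d)) × (ℕ → EuclideanSpace ℝ (Fin d)) =>
        (w.1 l, w.2 l)) '' VSet2 Ω n m) = 0 := by
  apply null_of_locally_null
  rintro ⟨p, u⟩ ⟨hor, hs, -⟩
  obtain ⟨a, b, C, ha, hb, -, hev⟩ := exists_vchn (n := n) hor hs
  have hfr : Module.finrank ℝ ((ℝ ∙ a)ᗮ × (ℝ ∙ b)ᗮ) = 2 * d - 2 := by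
    have h1 := Submodule.finrank_add_finrank_orthogonal (ℝ ∙ a)
    have h2 := Submodule.finrank_add_finrank_orthogonal (ℝ ∙ b)
    rw [finrank_span_singleton ha, finrank_euclideanSpace_fin] at h1
    rw [finrank_span_singleton hb, finrank_euclideanSpace_fin] at h2
    rw [Module.finrank_prod]
    omega
  have h0 := duo_null C (by rw [finrank_euclideanSpace_fin]; exact hd)
    (μH[Module.finrank ℝ ((ℝ ∙ a)ᗮ × (ℝ ∙ b)ᗮ)]) hm0 hmn
  obtain ⟨A, hA⟩ : ∃ A, A = {z | z ∈ C.U ∧ C.x n z = C.x 0 z ∧ C.e n z = C.e 0 z ∧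
    (∀ k, 1 ≤ k → k < n → k ≠ m → Curv Ω (C.x k z) 0) ∧ len C n z ≠ 0} := ⟨_, rfl⟩
  rw [← hA, hfr] at h0
  refine ⟨(fun z => (C.x l z, C.e l z)) '' A, ?_, ?_⟩
  · refine OB.img_null (Nat.cast_nonneg _) (fun z hz => ?_) h0
    rw [hA] at hz
    exact ((C.cx l hl z hz.1).prodMk (C.ce l hl z hz.1)).of_le (by norm_cast)
  · filter_upwards [hev] with w hw hor'
    obtain ⟨z, hzU, hz⟩ := hw hor'.1
    obtain ⟨h1, h2, h3, h4, h5, h6⟩ := hor'
    refine ⟨z, ?_, ?_⟩
    · rw [hA]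
      refine ⟨hzU, ?_, ?_, fun k hk1 hk hkm => ?_, ?_⟩
      · rw [(hz n le_rfl).1, (hz 0 (Nat.zero_le _)).1]
        exact h3
      · rw [(hz n le_rfl).2, (hz 0 (Nat.zero_le _)).2]
        exact h4
      · rw [(hz k hk.le).1]
        exact h5 k hk1 hk hkm
      · have e1 : len C n z = ∑ k ∈ Finset.range n, ⟪w.1 (k + 1) - w.1 k, w.2 k⟫_ℝ := by
          unfold len
          apply Finset.sum_congr rfl
          intro k hk
          have hk' := Finset.mem_range.1 hk
          rw [← (hz (k + 1) hk').1, ← (hz k hk'.le).1, ← (hz k hk'.le).2, C.step k hk' z,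
            add_sub_cancel_left, real_inner_smul_left, C.ee k hk'.le z hzU, mul_one]
        rw [e1]
        exact h6
    · simp only
      rw [(hz l hl).1, (hz l hl).2]

theorem invTwo_null (hd : 2 ≤ d) (B : Set (EuclideanSpace ℝ (Fin d))) :
    μH[((2 * d - 2 : ℕ) : ℝ)] (InvTwo B) = 0 := by
  obtain ⟨G, hG⟩ : ∃ G : EuclideanSpace ℝ (Fin d) × EuclideanSpace ℝ (Fin d) →
      EuclideanSpace ℝ (Fin d) × EuclideanSpace ℝ (Fin d),
    G = fun z => (z.1 - ⟪z.1, z.2⟫_ℝ • z.2, z.2) := ⟨_, rfl⟩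
  have hGc : ContDiff ℝ 1 G := by
    rw [hG]
    exact (contDiff_fst.sub ((contDiff_fst.inner ℝ contDiff_snd).smul contDiff_snd)).prodMk
      contDiff_snd
  refine measure_mono_null (t := ⋃ n : ℕ, ⋃ m : ℕ, ⋃ l : ℕ, ⋃ (_ : 0 < m), ⋃ (_ : m < n),
    ⋃ (_ : l ≤ n), G '' ((fun w : (ℕ → EuclideanSpace ℝ (Fin d)) ×
      (ℕ → EuclideanSpace ℝ (Fin d)) => (w.1 l, w.2 l)) '' VSet2 Bᶜ n m)) ?_ ?_
  · rintro ⟨y, v⟩ ⟨n, A, u, h, hs, j, hj, j', hj', hr⟩
    have hpos := h.pos
    have hn2 : 2 ≤ n := by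
      by_contra hcon
      have h1 : n = 1 := by omega
      subst h1
      exact not_one h
    obtain ⟨c, hc⟩ : ∃ c : ℕ → ℕ, c = fun i => (i + j) % n := ⟨_, rfl⟩
    obtain ⟨h1, h2⟩ := ray_chain h hj c hc
    have hcn : ∀ i, c i < n := fun i => by rw [hc]; exact Nat.mod_lt _ (by omega)
    have c0 : c 0 = j := by rw [hc]; simp only [zero_add]; exact Nat.mod_eq_of_lt hj
    have cn : c n = j := by
      rw [hc]
      simp only [Nat.add_mod_left]
      exact Nat.mod_eq_of_lt hj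
    have cl : c (n - 1 - j) = n - 1 := by
      rw [hc]
      simp only
      rw [show n - 1 - j + j = n - 1 by omega]
      exact Nat.mod_eq_of_lt (by omega)
    have cv : ∀ i < n, c i = if i + j < n then i + j else i + j - n := by
      intro i hi
      rw [hc]
      simp only
      by_cases h3 : i + j < n
      · rw [Nat.mod_eq_of_lt h3, if_pos h3]
      · rw [if_neg h3, Nat.mod_eq_sub_mod (by omega)]
        exact Nat.mod_eq_of_lt (by omega)
    obtain ⟨m, hm0, hmn, hm⟩ : ∃ m, 0 < m ∧ m < n ∧ ∀ i, 1 ≤ i → i < n → i ≠ m →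
        c i ≠ j ∧ c i ≠ j' := by
      by_cases hjj : j = j'
      · refine ⟨1, by norm_num, by omega, fun i hi1 hi him => ?_⟩
        rw [cv i hi]
        split_ifs <;> omega
      · refine ⟨if j < j' then j' - j else j' + n - j, ?_, ?_, fun i hi1 hi him => ?_⟩
        · split_ifs <;> omega
        · split_ifs <;> omega
        · rw [cv i hi]
          split_ifs at him ⊢ <;> omega
    refine mem_iUnion.2 ⟨n, mem_iUnion.2 ⟨m, mem_iUnion.2 ⟨n - 1 - j, mem_iUnion.2 ⟨hm0,
      mem_iUnion₂.2 ⟨hmn, by omega, ?_⟩⟩⟩⟩⟩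
    refine ⟨_, ⟨(fun i => A (c i), fun i => u (c i)), ⟨h1, fun k => hs _ (hcn k), ?_, ?_,
      fun k hk1 hk hkm => hr _ (hcn k) (hm k hk1 hk hkm).1 (hm k hk1 hk hkm).2, h2⟩, rfl⟩, ?_⟩
    · change A (c n) = A (c 0)
      rw [cn, c0]
    · change u (c n) = u (c 0)
      rw [cn, c0]
    · obtain ⟨s1, hs1, -⟩ := h.last
      have hvv : ⟪v, v⟫_ℝ = 1 := by
        rw [real_inner_self_eq_norm_sq, h.unit]; norm_num
      have hout := h.out
      have hperp := h.perp
      simp only at hs1 hout hperp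
      rw [hG]
      simp only [cl]
      rw [hs1, hout, inner_add_left, real_inner_smul_left, hvv, hperp]
      simp
  · refine measure_iUnion_null fun n => measure_iUnion_null fun m => measure_iUnion_null fun l =>
      measure_iUnion_null fun hm0 => measure_iUnion_null fun hmn =>
      measure_iUnion_null fun hl => ?_
    exact OB.img_null (Nat.cast_nonneg _) (fun z _ => hGc.contDiffAt)
      (vset2_null hd Bᶜ hm0 hmn hl)

end Pool.Agent.TH746.IR
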