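import Pool.Agent.TH746.IR.VChn
import Pool.Agent.TH746.UM.Main

set_option autoImplicit false

open MeasureTheory Set Filter Topology Asymptotics
open scoped ContDiff InnerProductSpace
open Pool.Agent.H721R2.Quart Pool.Agent.H721R2.Ivrii

namespace Pool.Agent.TH746.IR

open Pool.Agent.TH746.UM

section K
variable {E Z : Type} [NormedAddCommGroup E] [InnerProductSpace ℝ E] [FiniteDimensional ℝ E]
  [NormedAddCommGroup Z] [NormedSpace ℝ Z] [FiniteDimensional ℝ Z] {Ω : Set E} {N : ℕ}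

/-- The unit normals of the family. -/
noncomputable def VChn.nu (C : VChn E Ω N Z) (k : ℕ) (z : Z) : E := dir (gradient (C.F k) (C.x k z))

omit [FiniteDimensional ℝ Z] in
theorem VChn.nu_unit (C : VChn E Ω N Z) {k : ℕ} (hk : k ≤ N) {z : Z} (hz : z ∈ C.U) :
    ⟪C.nu k z, C.nu k z⟫_ℝ = 1 := dir_unit (C.df k hk z hz).grad

omit [FiniteDimensional ℝ Z] in
/-- At an umbilic point the derivative of the normal is a multiple of the derivative of the
position. -/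
theorem VChn.kap (C : VChn E Ω N Z) {k : ℕ} (hk : k ≤ N) {z : Z} (hz : z ∈ C.U) {κ : ℝ}
    (hc : Curv Ω (C.x k z) κ) (ζ : Z) :
    fderiv ℝ (C.nu k) z ζ = κ • fderiv ℝ (C.x k) z ζ := by
  have hdf := C.df k hk z hz
  have hn : DifferentiableAt ℝ (fun y => dir (gradient (C.F k) y)) (C.x k z) :=
    (G2_contDiff_nu hdf.smooth hdf.grad).differentiableAt (by norm_num)
  have hx : DifferentiableAt ℝ (C.x k) z := (C.cx k hk z hz).differentiableAt (by simp)
  have h1 : fderiv ℝ (C.nu k) z =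
      (fderiv ℝ (fun y => dir (gradient (C.F k) y)) (C.x k z)).comp (fderiv ℝ (C.x k) z) :=
    fderiv_comp z hn hx
  rw [h1, ContinuousLinearMap.comp_apply]
  refine curv_key hdf hc _ ?_
  have h2 := C.tan k hk z hz ζ
  unfold dir at h2
  rw [real_inner_smul_left] at h2
  exact (mul_eq_zero.1 h2).resolve_left (inv_ne_zero (norm_ne_zero_iff.2 hdf.grad))

omit [FiniteDimensional ℝ Z] in
theorem VChn.x_frontier (C : VChn E Ω N Z) {k : ℕ} (hk : k ≤ N) {z : Z} (hz : z ∈ C.U) :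
    Tendsto (C.x k) (𝓝 z) (𝓝[frontier Ω] (C.x k z)) := by
  refine tendsto_nhdsWithin_iff.2 ⟨(C.cx k hk z hz).continuousAt, ?_⟩
  filter_upwards [C.hU.mem_nhds hz] with y hy
  exact ldef_frontier (C.df k hk y hy)

omit [FiniteDimensional ℝ Z] in
theorem VChn.dx_ne (C : VChn E Ω N Z) (hd : 2 ≤ Module.finrank ℝ E) {k : ℕ} (hk : k ≤ N) {z : Z}
    (hz : z ∈ C.U) : fderiv ℝ (C.x k) z ≠ 0 := by
  intro h
  have hN := C.nu_unit hk hz
  obtain ⟨Y, hY⟩ : ∃ Y : E, Y ∉ Submodule.span ℝ {C.nu k z} := by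
    by_contra hcon
    push Not at hcon
    have h1 : Submodule.span ℝ {C.nu k z} = ⊤ := Submodule.eq_top_iff'.2 hcon
    have h2 := finrank_span_singleton (K := ℝ) (v := C.nu k z) (by
      intro h0; rw [h0, inner_zero_left] at hN; exact zero_ne_one hN)
    rw [h1, finrank_top] at h2
    omega
  obtain ⟨ζ, hζ, -⟩ := C.surj k hk z hz (Y - ⟪C.nu k z, Y⟫_ℝ • C.nu k z) 0 (by
    change ⟪C.nu k z, _⟫_ℝ = 0
    rw [inner_sub_right, inner_smul_right, hN]; ring) (inner_zero_right _)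
  rw [h, _root_.zero_apply] at hζ
  apply hY
  rw [Submodule.mem_span_singleton]
  exact ⟨⟪C.nu k z, Y⟫_ℝ, (sub_eq_zero.1 hζ.symm).symm⟩

omit [FiniteDimensional ℝ Z] in
theorem VChn.rank (C : VChn E Ω N Z) (hd : 3 ≤ Module.finrank ℝ E) {k : ℕ} (hk : k ≤ N) {z : Z}
    (hz : z ∈ C.U) (a : Z) : ∃ b, ∀ c : ℝ, fderiv ℝ (C.x k) z b ≠ c • fderiv ℝ (C.x k) z a := by
  have hN := C.nu_unit hk hz
  obtain ⟨v, hv⟩ : ∃ v, v = fderiv ℝ (C.x k) z a := ⟨_, rfl⟩
  obtain ⟨Y, hY⟩ : ∃ Y : E, Y ∉ Submodule.span ℝ {C.nu k z, v} := by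
    by_contra hcon
    push Not at hcon
    have h1 : Submodule.span ℝ {C.nu k z, v} = ⊤ := Submodule.eq_top_iff'.2 hcon
    have h2 : Module.finrank ℝ (Submodule.span ℝ ({C.nu k z, v} : Set E)) ≤ 2 := by
      classical
      have h3 := finrank_span_finset_le_card (R := ℝ) ({C.nu k z, v} : Finset E)
      rw [Finset.coe_pair] at h3
      exact h3.trans Finset.card_le_two
    rw [h1, finrank_top] at h2
    omega
  obtain ⟨ζ, hζ, -⟩ := C.surj k hk z hz (Y - ⟪C.nu k z, Y⟫_ℝ • C.nu k z) 0 (by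
    change ⟪C.nu k z, _⟫_ℝ = 0
    rw [inner_sub_right, inner_smul_right, hN]; ring) (inner_zero_right _)
  refine ⟨ζ, fun c hc => hY ?_⟩
  rw [hζ, ← hv] at hc
  rw [Submodule.mem_span_pair]
  exact ⟨⟪C.nu k z, Y⟫_ℝ, c, by rw [← hc]; abel⟩

/-- At a vertex the factor is stationary. -/
theorem VChn.vertex (C : VChn E Ω N Z) (hd : 2 ≤ Module.finrank ℝ E) {k : ℕ} (hk : k ≤ N) {z : Z}
    (hz : z ∈ C.U) (hv : Vertex Ω (C.x k z)) : fderiv ℝ (lamf (C.x k) (C.nu k)) z = 0 := by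
  obtain ⟨κ, h1, h2⟩ := hv
  have hx := C.x_frontier hk hz
  have h3 : ∀ᶠ z' in 𝓝 z, lamf (C.x k) (C.nu k) z' = κ (C.x k z') := by
    filter_upwards [hx.eventually h1, C.hU.mem_nhds hz] with z' h4 h5
    exact lamf_eq (C.dx_ne hd hk h5) (C.kap hk h5 h4)
  have h4 : (fun z' => lamf (C.x k) (C.nu k) z' - lamf (C.x k) (C.nu k) z) =o[𝓝 z]
      fun z' => z' - z := by
    have h5 := h2.comp_tendsto hx
    have h6 : (fun z' => C.x k z' - C.x k z) =O[𝓝 z] fun z' => z' - z :=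
      ((C.cx k hk z hz).differentiableAt (by simp)).hasFDerivAt.isBigO_sub
    have h7 := h5.trans_isBigO h6
    refine h7.congr' ?_ EventuallyEq.rfl
    filter_upwards [h3] with z' h8
    simp only [Function.comp_apply]
    rw [h8, h3.self_of_nhds]
  have h5 : HasFDerivAt (lamf (C.x k) (C.nu k)) (0 : Z →L[ℝ] ℝ) z := by
    rw [hasFDerivAt_iff_isLittleO]
    simpa using h4
  exact h5.fderiv

end K


end Pool.Agent.TH746.IR
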