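import Pool.Agent.TH746.IR.FamV
import Pool.Agent.TH746.OB.Main2
import Pool.Agent.TH746.AL.Invis

/-!
Rays of invisibility with at most one non-umbilic reflection.
-/

set_option autoImplicit false

open MeasureTheory Set Filter Topology
open scoped InnerProductSpace ContDiff
open Pool.Agent.H721R2.Quart Pool.Agent.H721R2.Ivrii

namespace Pool.Agent.TH746.IR

open Pool.Agent.TH746 Pool.Agent.TH746.UM Pool.Agent.TH746.AL Pool.Agent.TH746.OB

section R
variable {E : Type*} [NormedAddCommGroup E] [InnerProductSpace ℝ E] [FiniteDimensional ℝ E]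

/-- A ray of invisibility is a closed chain of reflections, the last flight (along the line, back
or ahead) being of any sign. -/
theorem ray_chain {B : Set E} {n : ℕ} {y v : E} {A u : ℕ → E} (h : InvRay B n y v A u) {j : ℕ}
    (hj : j < n) (c : ℕ → ℕ) (hc : c = fun i => (i + j) % n) :
    VOrb Bᶜ (fun i => A (c i)) (fun i => u (c i)) ∧
      ∑ k ∈ Finset.range n, ⟪A (c (k + 1)) - A (c k), u (c k)⟫_ℝ ≠ 0 := by
  obtain ⟨N, rfl⟩ : ∃ N, n = N + 1 := ⟨n - 1, by have := h.pos; omega⟩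
  have hvv : ⟪v, v⟫_ℝ = 1 := by rw [real_inner_self_eq_norm_sq, h.unit]; norm_num
  have hout : u N = v := h.out
  have hunit : ∀ i < N + 1, ⟪u i, u i⟫_ℝ = 1 := by
    intro i
    induction i with
    | zero => intro _; exact h.mirror.unit hvv
    | succ i ih =>
      intro hi
      exact (step_mirror (h.step i hi)).unit (ih (by omega))
  have hmir : ∀ i < N + 1, ∃ v', Mirror Bᶜ (A i) v' (u i) := by
    intro i hi
    rcases i with _ | i
    · exact ⟨_, h.mirror⟩
    · exact ⟨_, step_mirror (h.step i hi)⟩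
  obtain ⟨s0, hs0, -⟩ := h.first
  obtain ⟨s1, hs1, -⟩ := h.last
  simp only [Nat.add_sub_cancel] at hs1
  have htex : ∀ i, ∃ t : ℝ, i < N → (0 < t ∧ A (i + 1) = A i + t • u i) := by
    intro i
    by_cases hi : i < N
    · obtain ⟨t, ht, hq, -⟩ := h.step i (by omega)
      exact ⟨t, fun _ => ⟨ht, hq⟩⟩
    · exact ⟨0, fun h => absurd h hi⟩
  choose t ht using htex
  obtain ⟨T, hT⟩ : ∃ T : ℕ → ℝ, T = fun i => if i < N then t i else s0 - s1 := ⟨_, rfl⟩
  have hTi : ∀ i < N, T i = t i := fun i hi => by rw [hT]; simp only [if_pos hi]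
  have hTN : T N = s0 - s1 := by rw [hT]; simp only [lt_irrefl, if_false]
  have hsum : ∑ i ∈ Finset.range (N + 1), T i ≠ 0 := by
    have hN : 1 ≤ N := by
      by_contra hcon
      have h0 : N = 0 := by omega
      rw [h0] at hout
      exact h.mirror.ne hout
    have e1 : ∑ i ∈ Finset.range N, t i * ⟪u i, v⟫_ℝ = s1 - s0 := by
      have e2 : ∑ i ∈ Finset.range N, t i * ⟪u i, v⟫_ℝ =
          ∑ i ∈ Finset.range N, (⟪A (i + 1), v⟫_ℝ - ⟪A i, v⟫_ℝ) := by
        apply Finset.sum_congr rfl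
        intro i hi
        rw [(ht i (Finset.mem_range.1 hi)).2, inner_add_left, real_inner_smul_left]
        ring
      rw [e2, Finset.sum_range_sub (fun i => ⟪A i, v⟫_ℝ), hs0, hs1, inner_add_left, inner_add_left,
        real_inner_smul_left, real_inner_smul_left, hvv]
      ring
    have e3 : ∑ i ∈ Finset.range (N + 1), T i =
        ∑ i ∈ Finset.range N, t i * (1 - ⟪u i, v⟫_ℝ) := by
      rw [Finset.sum_range_succ, hTN]
      have e4 : ∑ i ∈ Finset.range N, T i = ∑ i ∈ Finset.range N, t i :=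
        Finset.sum_congr rfl fun i hi => hTi i (Finset.mem_range.1 hi)
      rw [e4]
      have e5 : ∑ i ∈ Finset.range N, t i * (1 - ⟪u i, v⟫_ℝ) =
          ∑ i ∈ Finset.range N, t i - ∑ i ∈ Finset.range N, t i * ⟪u i, v⟫_ℝ := by
        rw [← Finset.sum_sub_distrib]
        exact Finset.sum_congr rfl fun i _ => by ring
      rw [e5, e1]
      ring
    rw [e3]
    refine ne_of_gt (Finset.sum_pos' (fun i hi => ?_) ⟨0, Finset.mem_range.2 hN, ?_⟩)
    · have hi' := Finset.mem_range.1 hi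
      exact mul_nonneg (ht i hi').1.le
        (sub_nonneg.2 (unit_inner_lt (hunit i (by omega)) hvv).1)
    · exact mul_pos (ht 0 hN).1
        (sub_pos.2 ((unit_inner_lt (hunit 0 (by omega)) hvv).2 h.mirror.ne))
  have hcn : ∀ i, c i < N + 1 := fun i => by rw [hc]; exact Nat.mod_lt _ (by omega)
  have cs : ∀ i, c (i + 1) = if c i + 1 = N + 1 then 0 else c i + 1 := by
    intro i
    have h1 : c (i + 1) = (c i + 1) % (N + 1) := by
      rw [hc]
      simp only
      rw [Nat.mod_add_mod]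
      congr 1
      omega
    rw [h1]
    split_ifs with h2
    · rw [h2, Nat.mod_self]
    · exact Nat.mod_eq_of_lt (by have := hcn i; omega)
  have key : ∀ i, A (c (i + 1)) = A (c i) + T (c i) • u (c i) ∧
      Mirror Bᶜ (A (c (i + 1))) (u (c i)) (u (c (i + 1))) := by
    intro i
    rw [cs]
    by_cases h1 : c i + 1 = N + 1
    · rw [if_pos h1]
      have h2 : c i = N := by omega
      rw [h2, hTN, hout]
      refine ⟨?_, h.mirror⟩
      rw [hs0, hs1]
      module
    · rw [if_neg h1]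
      have h2 : c i < N := by have := hcn i; omega
      refine ⟨?_, step_mirror (h.step (c i) (by omega))⟩
      rw [hTi _ h2]
      exact (ht _ h2).2
  have hsumc : ∑ i ∈ Finset.range (N + 1), T (c i) = ∑ i ∈ Finset.range (N + 1), T i := by
    have h1 : ∀ l : ℕ, ∑ i ∈ Finset.range (N + 1), T ((i + l) % (N + 1)) =
        ∑ i ∈ Finset.range (N + 1), T i := by
      intro l
      induction l with
      | zero =>
        apply Finset.sum_congr rfl
        intro i hi
        rw [add_zero, Nat.mod_eq_of_lt (Finset.mem_range.1 hi)]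
      | succ l ih =>
        rw [← ih]
        have e1 := Finset.sum_range_succ' (fun i => T ((i + l) % (N + 1))) (N + 1)
        have e2 := Finset.sum_range_succ (fun i => T ((i + l) % (N + 1))) (N + 1)
        have e3 : T ((N + 1 + l) % (N + 1)) = T ((0 + l) % (N + 1)) := by
          rw [Nat.add_mod_left, zero_add]
        have e4 : ∑ i ∈ Finset.range (N + 1), T ((i + (l + 1)) % (N + 1)) =
            ∑ i ∈ Finset.range (N + 1), T ((i + 1 + l) % (N + 1)) := by
          apply Finset.sum_congr rfl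
          intro i _
          congr 2
          omega
        rw [e4]
        linarith
    rw [hc]
    exact h1 j
  refine ⟨⟨hunit _ (hcn 0), fun k => ?_, fun k => ⟨_, (key k).1⟩, fun k F hF => ?_⟩, ?_⟩
  · obtain ⟨v', F, hF, h1, h2⟩ := hmir (c k) (hcn k)
    refine ⟨F, hF, ?_⟩
    rw [h2, inner_sub_right, inner_smul_right, real_inner_self_eq_norm_sq]
    have h3 : ‖gradient F (A (c k))‖ ^ 2 ≠ 0 := pow_ne_zero 2 (norm_ne_zero_iff.2 hF.grad)
    rw [div_mul_cancel₀ _ h3, real_inner_comm]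
    intro h4
    apply h1
    linarith
  · exact (key k).2.refl hF
  · have e1 : ∑ k ∈ Finset.range (N + 1), ⟪A (c (k + 1)) - A (c k), u (c k)⟫_ℝ =
        ∑ i ∈ Finset.range (N + 1), T (c i) := by
      apply Finset.sum_congr rfl
      intro k _
      rw [(key k).1, add_sub_cancel_left, real_inner_smul_left, hunit _ (hcn k), mul_one]
    rw [e1, hsumc]
    exact hsum

end R

section M
variable {d : ℕ}

/-- The oriented lines (given by their direction and by their point nearest to the origin) which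
are rays of invisibility of the body `B`, with any number of reflections, all of them at points
near which the boundary is of class `C^∞`, at most one of them being at a point which is not umbilic
(`d ≥ 3`), resp. which is not a vertex of the boundary curve (`d = 2`). -/
def InvRound (B : Set (EuclideanSpace ℝ (Fin d))) :
    Set (EuclideanSpace ℝ (Fin d) × EuclideanSpace ℝ (Fin d)) :=
  {z | ∃ (n : ℕ) (A u : ℕ → EuclideanSpace ℝ (Fin d)), InvRay B n z.1 z.2 A u ∧
    (∀ i < n, SmoothAt Bᶜ (A i)) ∧ ∃ j < n, ∀ i < n, i ≠ j → Round Bᶜ (A i)}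

/-- The closed chains with reflections at round points but the first. -/
def VSet (Ω : Set (EuclideanSpace ℝ (Fin d))) (n : ℕ) :
    Set ((ℕ → EuclideanSpace ℝ (Fin d)) × (ℕ → EuclideanSpace ℝ (Fin d))) :=
  {w | VOrb Ω w.1 w.2 ∧ (∀ k, SmoothAt Ω (w.1 k)) ∧ w.1 n = w.1 0 ∧ w.2 n = w.2 0 ∧
    (∀ k, 1 ≤ k → k < n → Round Ω (w.1 k)) ∧
    ∑ k ∈ Finset.range n, ⟪w.1 (k + 1) - w.1 k, w.2 k⟫_ℝ ≠ 0}

theorem vset_null (hd : 2 ≤ d) (Ω : Set (EuclideanSpace ℝ (Fin d))) {n m : ℕ} (hn : 1 ≤ n)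
    (hm : m ≤ n) : μH[((2 * d - 2 : ℕ) : ℝ)] ((fun w : (ℕ → EuclideanSpace ℝ (Fin d)) ×
      (ℕ → EuclideanSpace ℝ (Fin d)) => (w.1 m, w.2 m)) '' VSet Ω n) = 0 := by
  apply null_of_locally_null
  rintro ⟨p, u⟩ ⟨hor, hs, -⟩
  obtain ⟨a, b, C, ha, hb, -, hev⟩ := exists_vchn (n := n) hor hs
  have hfr : Module.finrank ℝ ((ℝ ∙ a)ᗮ × (ℝ ∙ b)ᗮ) = 2 * d - 2 := by
    have h1 := Submodule.finrank_add_finrank_orthogonal (ℝ ∙ a)
    have h2 := Submodule.finrank_add_finrank_orthogonal (ℝ ∙ b)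
    rw [finrank_span_singleton ha, finrank_euclideanSpace_fin] at h1
    rw [finrank_span_singleton hb, finrank_euclideanSpace_fin] at h2
    rw [Module.finrank_prod]
    omega
  have h0 := fam_null3 (g := AffineIsometryEquiv.refl ℝ (EuclideanSpace ℝ (Fin d))) hd
    (μH[Module.finrank ℝ ((ℝ ∙ a)ᗮ × (ℝ ∙ b)ᗮ)]) hn C
  obtain ⟨A, hA⟩ : ∃ A, A = {z | z ∈ C.U ∧
      C.x n z = (AffineIsometryEquiv.refl ℝ (EuclideanSpace ℝ (Fin d))) (C.x 0 z) ∧
      C.e n z = (AffineIsometryEquiv.refl ℝ (EuclideanSpace ℝ (Fin d))).linearIsometryEquiv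
        (C.e 0 z) ∧
      (∀ k, 1 ≤ k → k < n → Round Ω (C.x k z)) ∧ ∑ k ∈ Finset.range n, C.L k z ≠ 0} :=
    ⟨_, rfl⟩
  rw [← hA, hfr] at h0
  refine ⟨(fun z => (C.x m z, C.e m z)) '' A, ?_, ?_⟩
  · refine OB.img_null (Nat.cast_nonneg _) (fun z hz => ?_) h0
    rw [hA] at hz
    exact ((C.cx m hm z hz.1).prodMk (C.ce m hm z hz.1)).of_le (by norm_cast)
  · filter_upwards [hev] with w hw hor'
    obtain ⟨z, hzU, hz⟩ := hw hor'.1
    obtain ⟨h1, h2, h3, h4, h5, h6⟩ := hor'
    refine ⟨z, ?_, ?_⟩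
    · rw [hA]
      refine ⟨hzU, ?_, ?_, fun k hk1 hk => ?_, ?_⟩
      · rw [(hz n le_rfl).1, (hz 0 (Nat.zero_le _)).1]
        exact h3
      · rw [(hz n le_rfl).2, (hz 0 (Nat.zero_le _)).2]
        exact h4
      · rw [(hz k hk.le).1]
        exact h5 k hk1 hk
      · have e1 : ∑ k ∈ Finset.range n, C.L k z =
            ∑ k ∈ Finset.range n, ⟪w.1 (k + 1) - w.1 k, w.2 k⟫_ℝ := by
          apply Finset.sum_congr rfl
          intro k hk
          have hk' := Finset.mem_range.1 hk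
          rw [← (hz (k + 1) hk').1, ← (hz k hk'.le).1, ← (hz k hk'.le).2, C.step k hk' z,
            add_sub_cancel_left, real_inner_smul_left, C.ee k hk'.le z hzU, mul_one]
        rw [e1]
        exact h6
    · simp only
      rw [(hz m hm).1, (hz m hm).2]

theorem invRound_null (hd : 2 ≤ d) (B : Set (EuclideanSpace ℝ (Fin d))) :
    μH[((2 * d - 2 : ℕ) : ℝ)] (InvRound B) = 0 := by
  obtain ⟨G, hG⟩ : ∃ G : EuclideanSpace ℝ (Fin d) × EuclideanSpace ℝ (Fin d) →
      EuclideanSpace ℝ (Fin d) × EuclideanSpace ℝ (Fin d),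
    G = fun z => (z.1 - ⟪z.1, z.2⟫_ℝ • z.2, z.2) := ⟨_, rfl⟩
  have hGc : ContDiff ℝ 1 G := by
    rw [hG]
    exact (contDiff_fst.sub ((contDiff_fst.inner ℝ contDiff_snd).smul contDiff_snd)).prodMk
      contDiff_snd
  refine measure_mono_null (t := ⋃ n : ℕ, ⋃ m : ℕ, ⋃ (_ : 1 ≤ n), ⋃ (_ : m ≤ n), G ''
    ((fun w : (ℕ → EuclideanSpace ℝ (Fin d)) × (ℕ → EuclideanSpace ℝ (Fin d)) =>
      (w.1 m, w.2 m)) '' VSet Bᶜ n)) ?_ ?_
  · rintro ⟨y, v⟩ ⟨n, A, u, h, hs, j, hj, hr⟩
    have hpos := h.pos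
    obtain ⟨c, hc⟩ : ∃ c : ℕ → ℕ, c = fun i => (i + j) % n := ⟨_, rfl⟩
    obtain ⟨h1, h2⟩ := ray_chain h hj c hc
    have hcn : ∀ i, c i < n := fun i => by rw [hc]; exact Nat.mod_lt _ (by omega)
    have c0 : c 0 = j := by rw [hc]; simp only [zero_add]; exact Nat.mod_eq_of_lt hj
    have cn : c n = j := by
      rw [hc]
      simp only [Nat.add_mod_left]
      exact Nat.mod_eq_of_lt hj
    have cm : c (n - 1 - j) = n - 1 := by
      rw [hc]
      simp only
      rw [show n - 1 - j + j = n - 1 by omega]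
      exact Nat.mod_eq_of_lt (by omega)
    have cne : ∀ i, 1 ≤ i → i < n → c i ≠ j := by
      intro i h1 h2
      rw [hc]
      simp only
      by_cases h3 : i + j < n
      · rw [Nat.mod_eq_of_lt h3]; omega
      · have h4 : (i + j) % n = i + j - n := by
          rw [Nat.mod_eq_sub_mod (by omega)]
          exact Nat.mod_eq_of_lt (by omega)
        rw [h4]; omega
    refine mem_iUnion.2 ⟨n, mem_iUnion.2 ⟨n - 1 - j, mem_iUnion₂.2 ⟨hpos, by omega, ?_⟩⟩⟩
    refine ⟨_, ⟨(fun i => A (c i), fun i => u (c i)), ⟨h1, fun k => hs _ (hcn k), ?_, ?_,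
      fun k hk1 hk => hr _ (hcn k) (cne k hk1 hk), h2⟩, rfl⟩, ?_⟩
    · change A (c n) = A (c 0)
      rw [cn, c0]
    · change u (c n) = u (c 0)
      rw [cn, c0]
    · obtain ⟨s1, hs1, -⟩ := h.last
      have hvv : ⟪v, v⟫_ℝ = 1 := by
        rw [real_inner_self_eq_norm_sq, h.unit]; norm_num
      have hout := h.out
      have hperp := h.perp
      simp only at hs1 hout hperp
      rw [hG]
      simp only [cm]
      rw [hs1, hout, inner_add_left, real_inner_smul_left, hvv, hperp]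
      simp
  · refine measure_iUnion_null fun n => measure_iUnion_null fun m =>
      measure_iUnion_null fun hn => measure_iUnion_null fun hm => ?_
    exact OB.img_null (Nat.cast_nonneg _) (fun z _ => hGc.contDiffAt) (vset_null hd Bᶜ hn hm)

end M

end Pool.Agent.TH746.IR
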