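import Pool.Agent.TH746.IR.TriAlg
import Pool.Agent.TH746.IR.Final

/-!
Rays of invisibility with three reflections, in all dimensions.
-/

set_option autoImplicit false

open MeasureTheory Set Filter Topology
open scoped InnerProductSpace ContDiff
open Pool.Agent.H721R2.Quart Pool.Agent.H721R2.Ivrii

namespace Pool.Agent.TH746.IR

open Pool.Agent.TH746 Pool.Agent.TH746.UM Pool.Agent.TH746.AL Pool.Agent.TH746.OB

section A
variable {Z W : Type*} [NormedAddCommGroup Z] [NormedSpace ℝ Z] [NormedAddCommGroup W]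
  [NormedSpace ℝ W]

/-- The derivative of a function vanishing along a sequence. -/
theorem appr_zero {r : ℕ → ℝ} {y : ℕ → Z} {z ζ : Z} (H : Appr r y z ζ) {f : Z → W}
    (hf : DifferentiableAt ℝ f z) (h0 : f z = 0) (hy : ∀ j, f (y j) = 0) :
    fderiv ℝ f z ζ = 0 := by
  have h1 := H.map hf
  refine tendsto_nhds_unique h1 ?_
  simp only [hy, h0, sub_zero, smul_zero]
  exact tendsto_const_nhds

theorem path' {f : Z → W} {z : Z} (hf : DifferentiableAt ℝ f z) (ζ : Z) :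
    HasDerivAt (fun t : ℝ => f (z + t • ζ)) (fderiv ℝ f z ζ) 0 := by
  have h1 : HasDerivAt (fun t : ℝ => z + t • ζ) ζ 0 := by
    simpa using ((hasDerivAt_id (0 : ℝ)).smul_const ζ).const_add z
  have h2 : HasFDerivAt f (fderiv ℝ f z) ((fun t : ℝ => z + t • ζ) 0) := by
    simpa using hf.hasFDerivAt
  exact h2.comp_hasDerivAt (0 : ℝ) h1

end A

section B
variable {E Z : Type} [NormedAddCommGroup E] [InnerProductSpace ℝ E] [FiniteDimensional ℝ E]
  [NormedAddCommGroup Z] [NormedSpace ℝ Z] [FiniteDimensional ℝ Z] {Ω : Set E}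

/-- the derivative of the normal of the second mirror -/
noncomputable def NN (C : VChn E Ω 3 Z) (z : Z) : E →L[ℝ] E :=
  fderiv ℝ (fun y => dir (gradient (C.F 1) y)) (C.x 1 z)

noncomputable def cc (C : VChn E Ω 3 Z) (z : Z) : ℝ := ⟪C.nu 1 z, C.e 0 z⟫_ℝ

noncomputable def tt (C : VChn E Ω 3 Z) (z : Z) : E := C.e 0 z - cc C z • C.nu 1 z

noncomputable def hh3 (C : VChn E Ω 3 Z) (z : Z) : ℝ :=
  2 * cc C z ^ 3 * ⟪tt C z, tt C z⟫_ℝ - len C 3 z * ⟪NN C z (tt C z), tt C z⟫_ℝ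

variable (C : VChn E Ω 3 Z) {z : Z}

omit [FiniteDimensional ℝ Z] in
theorem dnu {k : ℕ} (hk : k ≤ 3) (hz : z ∈ C.U) (ζ : Z) : fderiv ℝ (C.nu k) z ζ =
    fderiv ℝ (fun y => dir (gradient (C.F k) y)) (C.x k z) (fderiv ℝ (C.x k) z ζ) := by
  have hdf := C.df k hk z hz
  have hn : DifferentiableAt ℝ (fun y => dir (gradient (C.F k) y)) (C.x k z) :=
    (G2_contDiff_nu hdf.smooth hdf.grad).differentiableAt (by norm_num)
  have hx : DifferentiableAt ℝ (C.x k) z := (C.cx k hk z hz).differentiableAt (by simp)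
  have h1 : fderiv ℝ (C.nu k) z =
      (fderiv ℝ (fun y => dir (gradient (C.F k) y)) (C.x k z)).comp (fderiv ℝ (C.x k) z) :=
    fderiv_comp z hn hx
  rw [h1, ContinuousLinearMap.comp_apply]

omit [FiniteDimensional ℝ Z] in
theorem dx {k : ℕ} (hk : k < 3) (hz : z ∈ C.U) (ζ : Z) : fderiv ℝ (C.x (k + 1)) z ζ =
    fderiv ℝ (C.x k) z ζ + (C.L k z • fderiv ℝ (C.e k) z ζ +
      fderiv ℝ (C.L k) z ζ • C.e k z) := by
  have hL : DifferentiableAt ℝ (C.L k) z := (C.cL k hk z hz).differentiableAt (by simp)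
  have he : DifferentiableAt ℝ (C.e k) z := (C.ce k hk.le z hz).differentiableAt (by simp)
  have hx : DifferentiableAt ℝ (C.x k) z := (C.cx k hk.le z hz).differentiableAt (by simp)
  have h1 : HasFDerivAt (C.x (k + 1)) (fderiv ℝ (C.x k) z + (C.L k z • fderiv ℝ (C.e k) z +
      (fderiv ℝ (C.L k) z).smulRight (C.e k z))) z := by
    have h2 := hx.hasFDerivAt.add (hL.hasFDerivAt.smul he.hasFDerivAt)
    have h3 : C.x (k + 1) = fun z => C.x k z + C.L k z • C.e k z := funext (C.step k hk)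
    rw [h3]
    exact h2
  rw [h1.fderiv]; rfl

omit [FiniteDimensional ℝ Z] in
theorem de {k : ℕ} (hk : k < 3) (hz : z ∈ C.U) (ζ : Z) : fderiv ℝ (C.e (k + 1)) z ζ =
    rf (C.nu (k + 1) z) (fderiv ℝ (C.e k) z ζ) -
      (2 * ⟪fderiv ℝ (C.nu (k + 1)) z ζ, C.e k z⟫_ℝ) • C.nu (k + 1) z -
      (2 * ⟪C.nu (k + 1) z, C.e k z⟫_ℝ) • fderiv ℝ (C.nu (k + 1)) z ζ := by
  have hn : DifferentiableAt ℝ (C.nu (k + 1)) z := (C.cn (k + 1) hk z hz).differentiableAt (by simp)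
  have he : DifferentiableAt ℝ (C.e k) z := (C.ce k hk.le z hz).differentiableAt (by simp)
  have h1 : C.e (k + 1) = fun z => rf (C.nu (k + 1) z) (C.e k z) := funext (C.refl k hk)
  rw [h1]
  exact G3_rf_fderiv hn he ζ

omit [FiniteDimensional ℝ Z] in
theorem tr_in {k : ℕ} (hk : k < 3) (hz : z ∈ C.U) : ⟪C.nu (k + 1) z, C.e k z⟫_ℝ ≠ 0 := by
  intro h0
  apply C.tr (k + 1) hk z hz
  change ⟪C.nu (k + 1) z, _⟫_ℝ = 0
  rw [C.refl k hk z]
  change ⟪C.nu (k + 1) z, rf (C.nu (k + 1) z) (C.e k z)⟫_ℝ = 0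
  unfold rf
  rw [inner_sub_right, inner_smul_right, h0]
  ring

omit [FiniteDimensional ℝ Z] in
/-- The relation at the points at which the closing condition holds to first order. -/
theorem tri_rel (hz : z ∈ C.U) (h3 : C.x 3 z = C.x 0 z) (he3 : C.e 3 z = C.e 0 z)
    (hX : ∀ ζ, fderiv ℝ (C.x 3) z ζ = fderiv ℝ (C.x 0) z ζ) (hL0 : C.L 0 z ≠ 0)
    (hL1 : C.L 1 z ≠ 0) : hh3 C z = 0 := by
  have hlen : len C 3 z = C.L 0 z + C.L 1 z + C.L 2 z := by
    unfold len; rw [Finset.sum_range_succ, Finset.sum_range_succ, Finset.sum_range_one]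
  have h := tri (fun v => NN C z v) (fun s v => map_smul _ s v) (n := C.nu 1 z) (n2 := C.nu 2 z)
    (n3 := C.nu 3 z) (e0 := C.e 0 z) (e1 := C.e 1 z) (e2 := C.e 2 z)
    (C.nu_unit (by norm_num) hz) (C.ee 0 (by norm_num) z hz) (C.nu_unit (by norm_num) hz)
    (C.nu_unit (by norm_num) hz) (C.refl 0 (by norm_num) z) (C.refl 1 (by norm_num) z)
    (by rw [← he3]; exact C.refl 2 (by norm_num) z) (tr_in C (k := 1) (by norm_num) hz)
    (tr_in C (k := 2) (by norm_num) hz) (tr_in C (k := 0) (by norm_num) hz) hL0 hL1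
    (L2 := C.L 2 z) ?_ ?_
  · unfold hh3 tt cc
    rw [hlen, sub_eq_zero]
    exact h
  · have g0 := C.step 0 (by norm_num) z
    have g1 := C.step 1 (by norm_num) z
    have g2 := C.step 2 (by norm_num) z
    have g3 : C.x 0 z = C.x 0 z + (C.L 0 z • C.e 0 z + C.L 1 z • C.e 1 z + C.L 2 z • C.e 2 z) := by
      conv_lhs => rw [← h3]
      rw [g2, g1, g0]
      abel
    exact (left_eq_add.1 g3)
  · intro δ hδ
    obtain ⟨ζ, hζ1, hζ2⟩ := C.surj 2 (by norm_num) z hz 0 δ (inner_zero_right _) hδ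
    have n2z : fderiv ℝ (C.nu 2) z ζ = 0 := by
      rw [dnu C (by norm_num) hz, hζ1, map_zero]
    have d2 := de C (k := 1) (by norm_num) hz ζ
    have d1 := de C (k := 0) (by norm_num) hz ζ
    have p2 := dx C (k := 2) (by norm_num) hz ζ
    have p1 := dx C (k := 1) (by norm_num) hz ζ
    have p0 := dx C (k := 0) (by norm_num) hz ζ
    simp only [Nat.reduceAdd, zero_add] at d1 d2 p0 p1 p2
    rw [n2z, inner_zero_left, mul_zero, zero_smul, smul_zero, sub_zero, sub_zero, hζ2] at d2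
    refine ⟨fderiv ℝ (C.x 0) z ζ, fderiv ℝ (C.x 1) z ζ, fderiv ℝ (C.e 0) z ζ,
      fderiv ℝ (C.e 1) z ζ, fderiv ℝ (C.L 0) z ζ, fderiv ℝ (C.L 1) z ζ, fderiv ℝ (C.L 2) z ζ,
      d2, ?_, ?_, ?_, C.tan 1 (by norm_num) z hz ζ, ?_, e_perp C (by norm_num) hz ζ, ?_⟩
    · rw [← hζ1, p1]; abel
    · rw [← hX, p2, hζ1, hζ2]; abel
    · rw [p0]; abel
    · rw [← hX]; exact C.tan 3 (by norm_num) z hz ζ
    · rw [d1, dnu C (by norm_num) hz]
      rfl

/-- **Three reflections.** The closed chains of three reflections, two flights being of non-zero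
length and the sum of the three lengths being non-zero, are negligible. -/
theorem tri_null (hd : 2 ≤ Module.finrank ℝ E) [MeasurableSpace Z] [BorelSpace Z]
    (μ : Measure Z) [μ.IsAddHaarMeasure] :
    μ {z | z ∈ C.U ∧ C.x 3 z = C.x 0 z ∧ C.e 3 z = C.e 0 z ∧ C.L 0 z ≠ 0 ∧ C.L 1 z ≠ 0} = 0 := by
  obtain ⟨A, hA⟩ : ∃ A : Set Z, A = {z | z ∈ C.U ∧ C.x 3 z = C.x 0 z ∧ C.e 3 z = C.e 0 z ∧
    C.L 0 z ≠ 0 ∧ C.L 1 z ≠ 0} := ⟨_, rfl⟩
  rw [← hA]
  have hAm : ∀ z ∈ A, z ∈ C.U ∧ C.x 3 z = C.x 0 z ∧ C.e 3 z = C.e 0 z ∧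
    C.L 0 z ≠ 0 ∧ C.L 1 z ≠ 0 := by
    intro z hz; rw [hA] at hz; exact hz
  obtain ⟨B1, hB1, f1⟩ := exists_appr μ A
  obtain ⟨B2, hB2, f2⟩ := exists_appr μ (A \ B1)
  obtain ⟨B3, hB3, f3⟩ := exists_appr μ ((A \ B1) \ B2)
  refine measure_mono_null (t := B1 ∪ (B2 ∪ B3)) ?_
    (measure_union_null hB1 (measure_union_null hB2 hB3))
  have D : ∀ {k : ℕ}, k ≤ 3 → ∀ z ∈ A, DifferentiableAt ℝ (C.x k) z ∧
      DifferentiableAt ℝ (C.e k) z ∧ DifferentiableAt ℝ (C.nu k) z := fun hk z hz =>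
    ⟨(C.cx _ hk z (hAm z hz).1).differentiableAt (by simp),
      (C.ce _ hk z (hAm z hz).1).differentiableAt (by simp),
      (C.cn _ hk z (hAm z hz).1).differentiableAt (by simp)⟩
  -- first order
  have hX : ∀ z ∈ A \ B1, ∀ ζ, fderiv ℝ (C.x 3) z ζ = fderiv ℝ (C.x 0) z ζ := by
    intro z hz ζ
    obtain ⟨r, y, H, hy⟩ := f1 z hz ζ
    have h3 := (D (k := 3) le_rfl z hz.1).1
    have h0 := (D (k := 0) (by norm_num) z hz.1).1
    have h1 := appr_zero H (f := fun z => C.x 3 z - C.x 0 z) (h3.sub h0)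
      (sub_eq_zero.2 (hAm z hz.1).2.1) (fun j => sub_eq_zero.2 (hAm _ (hy j)).2.1)
    rw [fderiv_fun_sub h3 h0] at h1
    exact sub_eq_zero.1 h1
  have hrel : ∀ z ∈ A \ B1, hh3 C z = 0 := fun z hz =>
    tri_rel C (hAm z hz.1).1 (hAm z hz.1).2.1 (hAm z hz.1).2.2.1 (hX z hz) (hAm z hz.1).2.2.2.1
      (hAm z hz.1).2.2.2.2
  have hlen : ∀ z ∈ A \ B1, ∀ ζ, fderiv ℝ (len C 3) z ζ = 0 := by
    intro z hz ζ
    rw [dlen C le_rfl (hAm z hz.1).1, hX z hz, (hAm z hz.1).2.2.1, sub_self]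
  -- the variations
  have hvar : ∀ z ∈ A, ∀ α, ⟪C.e 0 z, α⟫_ℝ = 0 → ∃ ζ, fderiv ℝ (C.x 1) z ζ = 0 ∧
      fderiv ℝ (C.nu 1) z ζ = 0 ∧ fderiv ℝ (C.e 0) z ζ = α := by
    intro z hz α hα
    have hU := (hAm z hz).1
    have hn := C.nu_unit (k := 1) (by norm_num) hU
    have r1 : C.e 1 z = rf (C.nu 1 z) (C.e 0 z) := C.refl 0 (by norm_num) z
    obtain ⟨ζ, h1, h2⟩ := C.surj 1 (by norm_num) z hU 0 (rf (C.nu 1 z) α) (inner_zero_right _)
      (by rw [r1, G3_rf_inner hn, hα])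
    have h3 : fderiv ℝ (C.nu 1) z ζ = 0 := by rw [dnu C (by norm_num) hU, h1, map_zero]
    refine ⟨ζ, h1, h3, ?_⟩
    have h4 := de C (k := 0) (by norm_num) hU ζ
    simp only [zero_add] at h4
    rw [h3, inner_zero_left, mul_zero, zero_smul, smul_zero, sub_zero, sub_zero, h2] at h4
    rw [← G3_rf_invol hn α, h4, G3_rf_invol hn]
  have hcd : ∀ z ∈ A, DifferentiableAt ℝ (cc C) z := fun z hz =>
    (D (k := 1) (by norm_num) z hz).2.2.inner ℝ (D (k := 0) (by norm_num) z hz).2.1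
  have htd : ∀ z ∈ A, DifferentiableAt ℝ (tt C) z := fun z hz =>
    (D (k := 0) (by norm_num) z hz).2.1.sub ((hcd z hz).smul (D (k := 1) (by norm_num) z hz).2.2)
  have hNd : ∀ z ∈ A, DifferentiableAt ℝ (NN C) z := by
    intro z hz
    have hdf := C.df 1 (by norm_num) z (hAm z hz).1
    have h1 : ContDiffAt ℝ 1 (fderiv ℝ (fun y => dir (gradient (C.F 1) y))) (C.x 1 z) :=
      (G2_contDiff_nu hdf.smooth hdf.grad).fderiv_right (m := 1) (by norm_num)
    exact (h1.differentiableAt (by norm_num)).comp z (D (k := 1) (by norm_num) z hz).1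
  have hNz : ∀ z ∈ A, ∀ ζ, fderiv ℝ (C.x 1) z ζ = 0 → fderiv ℝ (NN C) z ζ = 0 := by
    intro z hz ζ hζ
    have hdf := C.df 1 (by norm_num) z (hAm z hz).1
    have h1 : ContDiffAt ℝ 1 (fderiv ℝ (fun y => dir (gradient (C.F 1) y))) (C.x 1 z) :=
      (G2_contDiff_nu hdf.smooth hdf.grad).fderiv_right (m := 1) (by norm_num)
    have h2 : fderiv ℝ (NN C) z = _ := fderiv_comp z (h1.differentiableAt (by norm_num))
      (D (k := 1) (by norm_num) z hz).1
    rw [h2, ContinuousLinearMap.comp_apply, hζ, map_zero]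
  have hld : ∀ z ∈ A, DifferentiableAt ℝ (len C 3) z := fun z hz =>
    (len_cd C le_rfl (hAm z hz).1).differentiableAt (by simp)
  have hhd : ∀ z ∈ A, DifferentiableAt ℝ (hh3 C) z := by
    intro z hz
    exact (((hcd z hz).pow 3).const_mul 2 |>.mul ((htd z hz).inner ℝ (htd z hz))).sub
      ((hld z hz).mul (((hNd z hz).clm_apply (htd z hz)).inner ℝ (htd z hz)))
  have hc0 : ∀ z ∈ A, cc C z ≠ 0 := fun z hz => tr_in C (k := 0) (by norm_num) (hAm z hz).1
  -- normal incidence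
  have hnorm : ∀ z ∈ (A \ B1) \ B2, tt C z = 0 := by
    intro z hz
    have hzA := hz.1.1
    have hU := (hAm z hzA).1
    have hn := C.nu_unit (k := 1) (by norm_num) hU
    have he := C.ee 0 (by norm_num) z hU
    obtain ⟨c, hc⟩ : ∃ c, c = cc C z := ⟨_, rfl⟩
    obtain ⟨t, ht⟩ : ∃ t, t = tt C z := ⟨_, rfl⟩
    have hc' : ⟪C.nu 1 z, C.e 0 z⟫_ℝ = c := hc.symm
    have ht' : t = C.e 0 z - c • C.nu 1 z := by rw [ht, hc]; rfl
    have htt : ⟪t, t⟫_ℝ = 1 - c ^ 2 := by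
      rw [ht', inner_sub_left, inner_sub_right, inner_sub_right, real_inner_smul_left,
        real_inner_smul_left, real_inner_smul_right, real_inner_smul_right, he, hn, hc',
        real_inner_comm, hc']
      ring
    obtain ⟨ζ, g1, g2, g3⟩ := hvar z hzA (C.nu 1 z - c • C.e 0 z) (by
      rw [inner_sub_right, real_inner_smul_right, he, real_inner_comm, hc']; ring)
    obtain ⟨r, y, H, hy⟩ := f2 z hz ζ
    have h1 := appr_zero H (hhd z hzA) (hrel z hz.1) (fun j => hrel _ (hy j))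
    -- the derivatives along the variation
    have pc : HasDerivAt (fun s : ℝ => cc C (z + s • ζ)) (1 - c ^ 2) 0 := by
      have h2 := (path' (D (k := 1) (by norm_num) z hzA).2.2 ζ).inner ℝ
        (path' (D (k := 0) (by norm_num) z hzA).2.1 ζ)
      refine h2.congr_deriv ?_
      rw [g2, g3, zero_smul, add_zero, inner_zero_left, add_zero, inner_sub_right,
        real_inner_smul_right, hn, hc']
      ring
    have pt : HasDerivAt (fun s : ℝ => tt C (z + s • ζ)) (-c • t) 0 := by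
      have h2 := (path' (D (k := 0) (by norm_num) z hzA).2.1 ζ).sub
        (pc.smul (path' (D (k := 1) (by norm_num) z hzA).2.2 ζ))
      refine h2.congr_deriv ?_
      rw [g2, g3, zero_smul, add_zero, ht']
      module
    have pN : HasDerivAt (fun s : ℝ => NN C (z + s • ζ)) 0 0 := by
      have h2 := path' (hNd z hzA) ζ
      rwa [hNz z hzA ζ g1] at h2
    have pl : HasDerivAt (fun s : ℝ => len C 3 (z + s • ζ)) 0 0 := by
      have h2 := path' (hld z hzA) ζ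
      rwa [hlen z hz.1 ζ] at h2
    have ph := path' (hhd z hzA) ζ
    rw [h1] at ph
    have ph2 := (((pc.pow 3).const_mul 2).mul (pt.inner ℝ pt)).sub
      (pl.mul ((pN.clm_apply pt).inner ℝ pt))
    have h4 := ph.unique ph2
    have e0 : z + (0 : ℝ) • ζ = z := by rw [zero_smul, add_zero]
    rw [e0, ← hc, ← ht] at h4
    have h5 := hrel z hz.1
    unfold hh3 at h5
    rw [← hc, ← ht] at h5
    simp only [map_smul, _root_.zero_apply, zero_add, real_inner_smul_left,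
      real_inner_smul_right, htt, zero_mul] at h4 h5
    have e9 : ((fun s : ℝ => cc C (z + s • ζ)) ^ 3) 0 = c ^ 3 := by
      rw [Pi.pow_apply, e0, ← hc]
    have h6 : 6 * c ^ 2 * (1 - c ^ 2) ^ 2 = 0 := by
      rw [e9] at h4
      push_cast at h4
      linear_combination -h4 + 2 * c * h5
    have hc2 : c ≠ 0 := by rw [hc]; exact hc0 z hzA
    have h7 : (1 - c ^ 2) ^ 2 = 0 := by
      have := mul_eq_zero.1 h6
      exact this.resolve_left (by positivity)
    have h8 : ⟪t, t⟫_ℝ = 0 := by rw [htt]; exact pow_eq_zero_iff (two_ne_zero) |>.1 h7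
    rw [← ht]
    exact inner_self_eq_zero.1 h8
  intro z hz
  by_contra hcon
  have h1 : z ∉ B1 := fun h => hcon (Or.inl h)
  have h2 : z ∉ B2 := fun h => hcon (Or.inr (Or.inl h))
  have h3 : z ∉ B3 := fun h => hcon (Or.inr (Or.inr h))
  have hz3 : z ∈ (A \ B1) \ B2 := ⟨⟨hz, h1⟩, h2⟩
  have hU := (hAm z hz).1
  have hn := C.nu_unit (k := 1) (by norm_num) hU
  have he := C.ee 0 (by norm_num) z hU
  have ht0 := hnorm z hz3
  have hen : C.e 0 z = cc C z • C.nu 1 z := sub_eq_zero.1 ht0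
  obtain ⟨α, hα, hα0⟩ : ∃ α : E, ⟪C.e 0 z, α⟫_ℝ = 0 ∧ α ≠ 0 := by
    obtain ⟨Y, hY⟩ : ∃ Y : E, Y ∉ Submodule.span ℝ {C.e 0 z} := by
      by_contra hcon
      push Not at hcon
      have h1 : Submodule.span ℝ {C.e 0 z} = ⊤ := Submodule.eq_top_iff'.2 hcon
      have h2 := finrank_span_singleton (K := ℝ) (v := C.e 0 z) (by
        intro h0; rw [h0, inner_zero_left] at he; exact zero_ne_one he)
      rw [h1, finrank_top] at h2
      omega
    refine ⟨Y - ⟪C.e 0 z, Y⟫_ℝ • C.e 0 z, ?_, ?_⟩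
    · rw [inner_sub_right, inner_smul_right, he]; ring
    · intro h0
      apply hY
      rw [Submodule.mem_span_singleton]
      exact ⟨⟪C.e 0 z, Y⟫_ℝ, (sub_eq_zero.1 h0).symm⟩
  obtain ⟨ζ, g1, g2, g3⟩ := hvar z hz α hα
  obtain ⟨r, y, H, hy⟩ := f3 z ⟨hz3, h3⟩ ζ
  have h4 := appr_zero H (htd z hz) ht0 (fun j => hnorm _ (hy j))
  have hnα : ⟪C.nu 1 z, α⟫_ℝ = 0 := by
    rw [hen, real_inner_smul_left] at hα
    exact (mul_eq_zero.1 hα).resolve_left (hc0 z hz)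
  have pc : HasDerivAt (fun s : ℝ => cc C (z + s • ζ)) 0 0 := by
    have h2 := (path' (D (k := 1) (by norm_num) z hz).2.2 ζ).inner ℝ
      (path' (D (k := 0) (by norm_num) z hz).2.1 ζ)
    refine h2.congr_deriv ?_
    rw [g2, g3, zero_smul, add_zero, inner_zero_left, add_zero, hnα]
  have pt := (path' (D (k := 0) (by norm_num) z hz).2.1 ζ).sub
    (pc.smul (path' (D (k := 1) (by norm_num) z hz).2.2 ζ))
  have h5 := (path' (htd z hz) ζ).unique pt
  rw [h4, g2, g3, smul_zero, zero_smul, zero_add, sub_zero] at h5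
  exact hα0 h5.symm

end B

end Pool.Agent.TH746.IR
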