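import Pool.Agent.TH746.IR.MainV

/-!
The relation between the curvature of the second mirror, the angle of incidence and the total length
for closed chains of three reflections which persist to first order.
-/

set_option autoImplicit false

open scoped InnerProductSpace
open Pool.Agent.H721R2.Quart

namespace Pool.Agent.TH746.IR

variable {E : Type*} [NormedAddCommGroup E] [InnerProductSpace ℝ E]

/-- A reflection anticommutes with the rotation in the plane spanned by `n`, `t`. -/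
theorem rf_anti {n t ν : E} {r x y x' y' κ : ℝ} (hn : ⟪n, n⟫_ℝ = 1) (hnt : ⟪n, t⟫_ℝ = 0)
    (ht : ⟪t, t⟫_ℝ = r) (hx : x ^ 2 + r * y ^ 2 = 1) (hx' : x' ^ 2 + r * y' ^ 2 = 1)
    (hν : ⟪ν, ν⟫_ℝ = 1) (hr : rf ν (x • n + y • t) = x' • n + y' • t)
    (hκ : ⟪ν, x • n + y • t⟫_ℝ = κ) (hκ0 : κ ≠ 0) :
    rf ν (-(r * y) • n + x • t) = -(-(r * y') • n + x' • t) := by
  have htn : ⟪t, n⟫_ℝ = 0 := by rw [real_inner_comm]; exact hnt
  obtain ⟨J, hJ⟩ : ∃ J, J = -(r * y) • n + x • t := ⟨_, rfl⟩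
  have e1 : (2 * κ) • ν = (x - x') • n + (y - y') • t := by
    unfold rf at hr
    rw [hκ] at hr
    have : (2 * κ) • ν = (x • n + y • t) - (x' • n + y' • t) := by rw [← hr]; abel
    rw [this]; module
  have e2 : 2 * κ * ⟪ν, J⟫_ℝ = r * (x' * y - x * y') := by
    have h := congrArg (fun v => ⟪v, J⟫_ℝ) e1
    rw [real_inner_smul_left, hJ] at h
    simp only [inner_add_left, inner_add_right, real_inner_smul_left, real_inner_smul_right,
      hn, hnt, htn, ht] at h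
    rw [hJ]
    simp only [inner_add_right, real_inner_smul_right]
    linear_combination h
  have e3 : 2 * κ ^ 2 = 1 - x * x' - r * y * y' := by
    have h := congrArg (fun v => ⟪v, v⟫_ℝ) e1
    simp only [inner_add_left, inner_add_right, real_inner_smul_left, real_inner_smul_right,
      hn, hnt, htn, ht, hν] at h
    linear_combination (1 / 2) * h + (1 / 2) * hx + (1 / 2) * hx'
  rw [← hJ]
  have e4 : (2 * κ ^ 2) • (rf ν J + (-(r * y') • n + x' • t)) = 0 := by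
    have h1 : (2 * κ ^ 2) • (rf ν J + (-(r * y') • n + x' • t)) =
        (2 * κ ^ 2) • (J + (-(r * y') • n + x' • t)) - (2 * κ * ⟪ν, J⟫_ℝ) • ((2 * κ) • ν) := by
      unfold rf
      module
    rw [h1, e1, e2, e3, hJ]
    have c1 : -(r * (1 - x * x' - r * y * y') * (y + y')) - r * (x' * y - x * y') * (x - x') = 0 := by
      linear_combination (r * y') * hx + (r * y) * hx'
    have c2 : (1 - x * x' - r * y * y') * (x + x') - r * (x' * y - x * y') * (y - y') = 0 := by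
      linear_combination (-x') * hx + (-x) * hx'
    have h2 : (1 - x * x' - r * y * y') • (-(r * y) • n + x • t + (-(r * y') • n + x' • t)) -
        (r * (x' * y - x * y')) • ((x - x') • n + (y - y') • t) =
        (-(r * (1 - x * x' - r * y * y') * (y + y')) - r * (x' * y - x * y') * (x - x')) • n +
        ((1 - x * x' - r * y * y') * (x + x') - r * (x' * y - x * y') * (y - y')) • t := by
      module
    rw [h2, c1, c2, zero_smul, zero_smul, add_zero]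
  have e5 := (smul_eq_zero.1 e4).resolve_left (by positivity)
  exact eq_neg_of_add_eq_zero_left e5

theorem tri (N : E → E) (hNs : ∀ (s : ℝ) v, N (s • v) = s • N v) {n n2 n3 e0 e1 e2 : E}
    (hn : ⟪n, n⟫_ℝ = 1) (he0 : ⟪e0, e0⟫_ℝ = 1) (h2 : ⟪n2, n2⟫_ℝ = 1) (h3 : ⟪n3, n3⟫_ℝ = 1)
    (r1 : e1 = rf n e0) (r2 : e2 = rf n2 e1) (r3 : e0 = rf n3 e2) (t2 : ⟪n2, e1⟫_ℝ ≠ 0)
    (t3 : ⟪n3, e2⟫_ℝ ≠ 0) (tc : ⟪n, e0⟫_ℝ ≠ 0) {L0 L1 L2 : ℝ} (hL0 : L0 ≠ 0) (hL1 : L1 ≠ 0)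
    (hcl : L0 • e0 + L1 • e1 + L2 • e2 = 0)
    (hv : ∀ δ, ⟪e2, δ⟫_ℝ = 0 → ∃ (X0 X1 E0 E1 : E) (ℓ0 ℓ1 ℓ2 : ℝ), δ = rf n2 E1 ∧
      0 = X1 + ℓ1 • e1 + L1 • E1 ∧ X0 = ℓ2 • e2 + L2 • δ ∧ X1 = X0 + ℓ0 • e0 + L0 • E0 ∧
      ⟪n, X1⟫_ℝ = 0 ∧ ⟪n3, X0⟫_ℝ = 0 ∧ ⟪e0, E0⟫_ℝ = 0 ∧
      E1 = rf n E0 - (2 * ⟪N X1, e0⟫_ℝ) • n - (2 * ⟪n, e0⟫_ℝ) • N X1) :
    2 * ⟪n, e0⟫_ℝ ^ 3 * ⟪e0 - ⟪n, e0⟫_ℝ • n, e0 - ⟪n, e0⟫_ℝ • n⟫_ℝ =
      (L0 + L1 + L2) * ⟪N (e0 - ⟪n, e0⟫_ℝ • n), e0 - ⟪n, e0⟫_ℝ • n⟫_ℝ := by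
  obtain ⟨c, hc⟩ : ∃ c, c = ⟪n, e0⟫_ℝ := ⟨_, rfl⟩
  obtain ⟨t, ht⟩ : ∃ t, t = e0 - c • n := ⟨_, rfl⟩
  rw [← hc] at tc ⊢
  rw [← ht]
  by_cases ht0 : t = 0
  · rw [ht0]; simp
  have he0' : e0 = c • n + (1 : ℝ) • t := by rw [ht]; module
  have hnt : ⟪n, t⟫_ℝ = 0 := by
    rw [ht, inner_sub_right, real_inner_smul_right, hn, ← hc]; ring
  have htn : ⟪t, n⟫_ℝ = 0 := by rw [real_inner_comm]; exact hnt
  obtain ⟨r, hr⟩ : ∃ r, r = ⟪t, t⟫_ℝ := ⟨_, rfl⟩
  have hr0 : r ≠ 0 := by rw [hr]; exact (real_inner_self_pos.2 ht0).ne'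
  have hcr : c ^ 2 + r * 1 ^ 2 = 1 := by
    have h := he0
    rw [he0'] at h
    simp only [inner_add_left, inner_add_right, real_inner_smul_left, real_inner_smul_right,
      hn, hnt, htn, ← hr] at h
    linear_combination h
  have he1' : e1 = (-c) • n + (1 : ℝ) • t := by
    rw [r1]; unfold rf; rw [← hc, he0']; module
  -- the third direction
  have hnn : ∀ a b : ℝ, a • n + b • t = 0 → a = 0 ∧ b = 0 := by
    intro a b hab
    have g1 := congrArg (fun v => ⟪n, v⟫_ℝ) hab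
    have g2 := congrArg (fun v => ⟪t, v⟫_ℝ) hab
    simp only [inner_add_right, real_inner_smul_right, hn, hnt, htn, ← hr, inner_zero_right] at g1 g2
    refine ⟨by linarith, ?_⟩
    have : b * r = 0 := by linarith
    exact (mul_eq_zero.1 this).resolve_right hr0
  have hL2 : L2 ≠ 0 := by
    intro h0
    rw [h0, zero_smul, add_zero, he0', he1'] at hcl
    have : (L0 * c - L1 * c) • n + (L0 + L1) • t = 0 := by rw [← hcl]; module
    obtain ⟨g1, g2⟩ := hnn _ _ this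
    have g3 : L0 - L1 = 0 := by
      have : (L0 - L1) * c = 0 := by linarith
      exact (mul_eq_zero.1 this).resolve_right tc
    exact hL0 (by linarith)
  obtain ⟨a, ha⟩ : ∃ a, a = -(c * (L0 - L1)) / L2 := ⟨_, rfl⟩
  obtain ⟨b, hb⟩ : ∃ b, b = -(L0 + L1) / L2 := ⟨_, rfl⟩
  have haL : L2 * a = -(c * (L0 - L1)) := by rw [ha]; field_simp
  have hbL : L2 * b = -(L0 + L1) := by rw [hb]; field_simp
  have he2' : e2 = a • n + b • t := by
    have g1 : L2 • (e2 - (a • n + b • t)) = 0 := by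
      have g2 : L2 • e2 = -(L0 • e0 + L1 • e1) := by
        rw [eq_neg_iff_add_eq_zero, ← hcl]; abel
      rw [smul_sub, g2, smul_add, smul_smul, smul_smul, haL, hbL, he0', he1']
      module
    exact sub_eq_zero.1 ((smul_eq_zero.1 g1).resolve_left hL2)
  have he1u : ⟪e1, e1⟫_ℝ = 1 := by rw [r1, G3_rf_inner hn, he0]
  have he2u : ⟪e2, e2⟫_ℝ = 1 := by rw [r2, G3_rf_inner h2, he1u]
  have hab : a ^ 2 + r * b ^ 2 = 1 := by
    have h := he2u
    rw [he2'] at h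
    simp only [inner_add_left, inner_add_right, real_inner_smul_left, real_inner_smul_right,
      hn, hnt, htn, ← hr] at h
    linear_combination h
  have hcr' : (-c) ^ 2 + r * 1 ^ 2 = 1 := by linear_combination hcr
  -- the rotated vectors
  obtain ⟨J0, hJ0⟩ : ∃ J, J = -(r * 1) • n + c • t := ⟨_, rfl⟩
  obtain ⟨J1, hJ1⟩ : ∃ J, J = -(r * 1) • n + (-c) • t := ⟨_, rfl⟩
  obtain ⟨J2, hJ2⟩ : ∃ J, J = -(r * b) • n + a • t := ⟨_, rfl⟩
  have a1 : rf n2 J1 = -J2 := by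
    rw [hJ1, hJ2]
    refine rf_anti hn hnt hr.symm hcr' hab h2 ?_ (κ := ⟪n2, e1⟫_ℝ) ?_ t2
    · rw [← he1', ← he2', r2]
    · rw [← he1']
  have a2 : rf n3 J2 = -J0 := by
    rw [hJ0, hJ2]
    refine rf_anti hn hnt hr.symm hab hcr h3 ?_ (κ := ⟪n3, e2⟫_ℝ) ?_ t3
    · rw [← he2', ← he0', ← r3]
    · rw [← he2']
  have hJ2e : ⟪e2, J2⟫_ℝ = 0 := by
    rw [he2', hJ2]
    simp only [inner_add_left, inner_add_right, real_inner_smul_left, real_inner_smul_right,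
      hn, hnt, htn, ← hr]
    ring
  obtain ⟨X0, X1, E0, E1, ℓ0, ℓ1, ℓ2, v1, v2, v3, v0, w1, w3, w0, k1⟩ := hv J2 hJ2e
  have hE1 : E1 = -J1 := by
    have g1 : rf n2 E1 = rf n2 (-J1) := by
      rw [← v1]
      have : rf n2 (-J1) = -rf n2 J1 := by unfold rf; rw [inner_neg_right]; module
      rw [this, a1, neg_neg]
    rw [← G3_rf_invol h2 E1, g1, G3_rf_invol h2]
  have hX1a : X1 = -(ℓ1 • e1) + L1 • J1 := by
    rw [hE1] at v2
    have : X1 = X1 + ℓ1 • e1 + L1 • -J1 - (ℓ1 • e1 + L1 • -J1) := by abel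
    rw [this, ← v2]; module
  have hℓ1 : ℓ1 * c = L1 * r := by
    rw [hX1a, he1', hJ1] at w1
    simp only [inner_add_right, inner_neg_right, real_inner_smul_right, hn, hnt] at w1
    linarith
  have hX1 : c • X1 = -(L1 • t) := by
    rw [hX1a, smul_add, smul_neg, smul_smul, mul_comm c ℓ1, hℓ1, he1', hJ1]
    have g1 : -((L1 * r) • (-c • n + (1 : ℝ) • t)) + c • L1 • (-(r * 1) • n + -c • t) =
        (-(L1 * (c ^ 2 + r * 1 ^ 2))) • t := by module
    rw [g1, hcr]; module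
  have hJJ : ⟪J2, J2⟫_ℝ = r := by
    rw [hJ2]
    simp only [inner_add_left, inner_add_right, real_inner_smul_left, real_inner_smul_right,
      hn, hnt, htn, ← hr]
    linear_combination r * hab
  have hX0J : ⟪X0, J0⟫_ℝ = -(L2 * r) := by
    have g1 : J0 = -rf n3 J2 := by rw [a2, neg_neg]
    have g2 : rf n3 X0 = X0 := by unfold rf; rw [w3]; simp
    rw [g1, inner_neg_right, ← G3_rf_sym, g2, v3, inner_add_left, real_inner_smul_left,
      real_inner_smul_left, hJ2e, hJJ]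
    ring
  have hJ0e : ⟪e0, J0⟫_ℝ = 0 := by
    rw [he0', hJ0]
    simp only [inner_add_left, inner_add_right, real_inner_smul_left, real_inner_smul_right,
      hn, hnt, htn, ← hr]
    ring
  have htJ0 : ⟪t, J0⟫_ℝ = c * r := by
    rw [hJ0]
    simp only [inner_add_right, real_inner_smul_right, htn, ← hr]
    ring
  have htJ1 : ⟪t, J1⟫_ℝ = -(c * r) := by
    rw [hJ1]
    simp only [inner_add_right, real_inner_smul_right, htn, ← hr]
    ring
  have hX1J0 : ⟪X1, J0⟫_ℝ = -(L1 * r) := by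
    have g1 : c * ⟪X1, J0⟫_ℝ = -(L1 * (c * r)) := by
      rw [← real_inner_smul_left, hX1, inner_neg_left, real_inner_smul_left, htJ0]
    have g2 : c * (⟪X1, J0⟫_ℝ + L1 * r) = 0 := by linarith
    have := (mul_eq_zero.1 g2).resolve_left tc
    linarith
  have hE0J0 : L0 * ⟪E0, J0⟫_ℝ = (L2 - L1) * r := by
    have g1 := congrArg (fun v => ⟪v, J0⟫_ℝ) v0
    simp only [inner_add_left, real_inner_smul_left, hJ0e, hX0J, hX1J0] at g1
    linarith
  have ht' : t = r • e0 + c • J0 := by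
    have g1 : r • e0 + c • J0 = (c ^ 2 + r * 1 ^ 2) • t := by rw [he0', hJ0]; module
    rw [g1, hcr, one_smul]
  have hE0t : L0 * ⟪E0, t⟫_ℝ = c * (L2 - L1) * r := by
    have g1 : ⟪E0, t⟫_ℝ = c * ⟪E0, J0⟫_ℝ := by
      rw [ht', inner_add_right, real_inner_smul_right, real_inner_smul_right, real_inner_comm,
        w0]
      ring
    rw [g1]
    linear_combination c * hE0J0
  have hE0X1 : L0 * ⟪E0, X1⟫_ℝ = L1 * (L1 - L2) * r := by
    have g1 : c * (L0 * ⟪E0, X1⟫_ℝ) = c * (L1 * (L1 - L2) * r) := by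
      have g2 : c * ⟪E0, X1⟫_ℝ = -(L1 * ⟪E0, t⟫_ℝ) := by
        rw [← real_inner_smul_right, hX1, inner_neg_right, real_inner_smul_right]
      linear_combination L0 * g2 - L1 * hE0t
    exact mul_left_cancel₀ tc g1
  have hE1X1 : ⟪E1, X1⟫_ℝ = -(L1 * r) := by
    have g1 : c * ⟪E1, X1⟫_ℝ = c * (-(L1 * r)) := by
      rw [← real_inner_smul_right, hX1, hE1, inner_neg_left, inner_neg_right,
        real_inner_smul_right, real_inner_comm, htJ1]
      ring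
    exact mul_left_cancel₀ tc g1
  have hK : ⟪E1, X1⟫_ℝ - ⟪E0, X1⟫_ℝ = -(2 * c * ⟪N X1, X1⟫_ℝ) := by
    have g1 : ⟪rf n E0, X1⟫_ℝ = ⟪E0, X1⟫_ℝ := by
      rw [G3_rf_sym]
      congr 1
      unfold rf; rw [w1]; simp
    rw [k1, inner_sub_left, inner_sub_left, real_inner_smul_left, real_inner_smul_left, w1, g1,
      ← hc]
    ring
  have hNN : c ^ 2 * ⟪N X1, X1⟫_ℝ = L1 ^ 2 * ⟪N t, t⟫_ℝ := by
    have g1 : ⟪N (c • X1), c • X1⟫_ℝ = c ^ 2 * ⟪N X1, X1⟫_ℝ := by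
      rw [hNs, real_inner_smul_left, real_inner_smul_right]; ring
    rw [← g1, hX1]
    have g2 : -(L1 • t) = (-L1) • t := by module
    rw [g2, hNs, real_inner_smul_left, real_inner_smul_right]; ring
  -- the norm of the third side
  have hsq : 4 * L0 * L1 * c ^ 2 = (L0 + L1 - L2) * (L0 + L1 + L2) := by
    have g1 : L2 ^ 2 = (L2 * a) ^ 2 + r * (L2 * b) ^ 2 := by linear_combination -L2 ^ 2 * hab
    rw [haL, hbL] at g1
    linear_combination g1 + (L0 + L1) ^ 2 * hcr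
  -- conclusion
  have f1 : c * r * (L0 + L1 - L2) = 2 * L0 * L1 * ⟪N t, t⟫_ℝ := by
    have g1 : L1 * (c * r * (L0 + L1 - L2)) = L1 * (2 * L0 * L1 * ⟪N t, t⟫_ℝ) := by
      linear_combination (-(L0 * c)) * hK + L0 * c * hE1X1 - c * hE0X1 + 2 * L0 * hNN
    exact mul_left_cancel₀ hL1 g1
  have f2 : (2 * L0 * L1) * (2 * c ^ 3 * r) = (2 * L0 * L1) * ((L0 + L1 + L2) * ⟪N t, t⟫_ℝ) := by
    linear_combination (L0 + L1 + L2) * f1 + c * r * hsq
  rw [← hr]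
  exact mul_left_cancel₀ (mul_ne_zero (mul_ne_zero two_ne_zero hL0) hL1) f2

end Pool.Agent.TH746.IR
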