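import Pool.Agent.TH746.UM.SChn

/-!
Families of chains of reflections with flights of any sign (the invisible rays are such chains).
-/

set_option autoImplicit false

open MeasureTheory Set Filter Topology
open scoped InnerProductSpace ContDiff
open Pool.Agent.H721R2.Quart Pool.Agent.H721R2.Ivrii

namespace Pool.Agent.TH746.IR

open Pool.Agent.TH746 Pool.Agent.TH746.UM

/-- A family of trajectories of class `C^∞`, parametrised by the initial position and direction. -/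
structure VChn (E : Type*) [NormedAddCommGroup E] [InnerProductSpace ℝ E] [FiniteDimensional ℝ E]
    (Ω : Set E) (N : ℕ) (Z : Type*) [NormedAddCommGroup Z] [NormedSpace ℝ Z] where
  U : Set Z
  hU : IsOpen U
  x : ℕ → Z → E
  e : ℕ → Z → E
  L : ℕ → Z → ℝ
  F : ℕ → E → ℝ
  cx : ∀ k ≤ N, ∀ z ∈ U, ContDiffAt ℝ ∞ (x k) z
  ce : ∀ k ≤ N, ∀ z ∈ U, ContDiffAt ℝ ∞ (e k) z
  cn : ∀ k ≤ N, ∀ z ∈ U, ContDiffAt ℝ ∞ (fun z => dir (gradient (F k) (x k z))) z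
  cL : ∀ k < N, ∀ z ∈ U, ContDiffAt ℝ ∞ (L k) z
  df : ∀ k ≤ N, ∀ z ∈ U, LocalDef Ω (x k z) (F k)
  ee : ∀ k ≤ N, ∀ z ∈ U, ⟪e k z, e k z⟫_ℝ = 1
  step : ∀ k < N, ∀ z, x (k + 1) z = x k z + L k z • e k z
  refl : ∀ k < N, ∀ z, e (k + 1) z = rf (dir (gradient (F (k + 1)) (x (k + 1) z))) (e k z)
  tr : ∀ k ≤ N, ∀ z ∈ U, ⟪dir (gradient (F k) (x k z)), e k z⟫_ℝ ≠ 0
  tan : ∀ k ≤ N, ∀ z ∈ U, ∀ ζ, ⟪dir (gradient (F k) (x k z)), fderiv ℝ (x k) z ζ⟫_ℝ = 0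
  surj : ∀ k ≤ N, ∀ z ∈ U, ∀ Y δ, ⟪dir (gradient (F k) (x k z)), Y⟫_ℝ = 0 → ⟪e k z, δ⟫_ℝ = 0 →
    ∃ ζ, fderiv ℝ (x k) z ζ = Y ∧ fderiv ℝ (e k) z ζ = δ

section C
variable {E : Type*} [NormedAddCommGroup E] [InnerProductSpace ℝ E] [FiniteDimensional ℝ E]

/-- A chain of reflections with flights of any sign. -/
structure VOrb (Ω : Set E) (p u : ℕ → E) : Prop where
  unit : ⟪u 0, u 0⟫_ℝ = 1
  reg : ∀ k, ∃ F, LocalDef Ω (p k) F ∧ ⟪gradient F (p k), u k⟫_ℝ ≠ 0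
  fly : ∀ k, ∃ t : ℝ, p (k + 1) = p k + t • u k
  refl : ∀ k F, LocalDef Ω (p (k + 1)) F → u (k + 1) = rf (dir (gradient F (p (k + 1)))) (u k)

theorem VOrb.units {Ω : Set E} {p u : ℕ → E} (h : VOrb Ω p u) : ∀ k, ⟪u k, u k⟫_ℝ = 1 := by
  intro k
  induction k with
  | zero => exact h.unit
  | succ k ih =>
    obtain ⟨F, hF, -⟩ := h.reg (k + 1)
    rw [h.refl k F hF, G3_rf_inner (dir_unit hF.grad), ih]

theorem exists_vchn {Ω : Set E} {n : ℕ} {p u : ℕ → E}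
    (h : VOrb Ω p u) (hsm : ∀ k, SmoothAt Ω (p k)) :
    ∃ (a b : E) (C : VChn E Ω n ((ℝ ∙ a)ᗮ × (ℝ ∙ b)ᗮ)), a ≠ 0 ∧ b ≠ 0 ∧
      (∃ K, LipschitzOnWith K (fun z => (C.x 0 z, C.e 0 z)) C.U) ∧
      ∀ᶠ w : (ℕ → E) × (ℕ → E) in 𝓝 (p, u), VOrb Ω w.1 w.2 →
        ∃ z ∈ C.U, ∀ k ≤ n, C.x k z = w.1 k ∧ C.e k z = w.2 k := by
  choose F dF cF using hsm
  have hunit := h.units
  have htrF : ∀ k, ⟪gradient (F k) (p k), u k⟫_ℝ ≠ 0 := by
    intro k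
    obtain ⟨F', hF', hF't⟩ := h.reg k
    obtain ⟨l, hl, hll⟩ := grad_parallel hF' (dF k)
    rw [hll, real_inner_smul_left]
    exact mul_ne_zero hl hF't
  have hst : ∀ k, u (k + 1) = rf (dir (gradient (F (k + 1)) (p (k + 1)))) (u k) ∧
      ⟪gradient (F (k + 1)) (p (k + 1)), u k⟫_ℝ ≠ 0 := by
    intro k
    have h1 := h.refl k _ (dF (k + 1))
    refine ⟨h1, fun h0 => htrF (k + 1) ?_⟩
    rw [h1]
    unfold rf dir
    rw [inner_sub_right, inner_smul_right, real_inner_smul_left, h0]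
    ring
  choose t hpt using h.fly
  have hT : ∀ k, ∃ T : E × E → ℝ, (∀ᶠ y in 𝓝 (p k, u k), ContDiffAt ℝ ∞ T y) ∧
      T (p k, u k) = t k ∧
      (∀ᶠ y in 𝓝 (p k, u k), F (k + 1) (y.1 + T y • y.2) = 0) ∧
      (∀ᶠ y in 𝓝 ((p k, u k), t k), F (k + 1) (y.1.1 + y.2 • y.1.2) = 0 → y.2 = T y.1) := by
    intro k
    exact hit_inf (by rw [← hpt k]; exact cF (k + 1))
      (by rw [← hpt k]; exact (dF (k + 1)).zero)
      (by rw [← hpt k, G4_fderiv_eq]; exact (hst k).2)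
  choose T hT1 hT2 hT3 hT4 using hT
  -- the normals
  obtain ⟨ν, hνd⟩ : ∃ ν : ℕ → E → E, ν = fun k x => dir (gradient (F k) x) := ⟨_, rfl⟩
  have hνi : ∀ k, ∀ᶠ x in 𝓝 (p k), ContDiffAt ℝ ∞ (ν k) x := by
    intro k
    have h2 : ContinuousAt (gradient (F k)) (p k) := (G2_contDiff_grad (dF k).smooth).continuousAt
    filter_upwards [cF k, h2.eventually_ne (dF k).grad] with x h3 h4
    rw [hνd]
    exact cd_normal h3 le_rfl h4
  have hM := fun k => exists_mirror' (dF k)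
  choose ν' σ hν' hσ hm' hzc using hM
  have hm : ∀ k, ∀ᶠ x in 𝓝 (p k), gradient (F k) x ≠ 0 ∧ ν k x = dir (gradient (F k) x) ∧
      ⟪ν k x, ν k x⟫_ℝ = 1 ∧
        (∀ v w, ⟪σ k x v, w⟫_ℝ = ⟪v, σ k x w⟫_ℝ) ∧ σ k x (ν k x) = 0 ∧
        (∀ X, ⟪ν k x, X⟫_ℝ = 0 → fderiv ℝ (ν k) x X = -σ k x X) := by
    intro k
    have h4 : ∀ᶠ x in 𝓝 (p k), ν' k x = dir (gradient (F k) x) := (hm' k).mono fun x hx => hx.2.1
    filter_upwards [hm' k, h4.eventually_nhds] with x hx hxn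
    obtain ⟨k0, k1, k2, k3, k4, k5⟩ := hx
    have e : ν k x = ν' k x := by rw [k1, hνd]
    have e' : fderiv ℝ (ν k) x = fderiv ℝ (ν' k) x := by
      have : ν k =ᶠ[𝓝 x] ν' k := by
        filter_upwards [hxn] with y hy
        rw [hy, hνd]
      exact this.fderiv_eq
    rw [e, e']
    exact ⟨k0, k1, k2, k3, k4, k5⟩
  -- the charts
  obtain ⟨Fs, hFs⟩ : ∃ Fs : E → ℝ, Fs = fun v : E => ⟪v, v⟫_ℝ - 1 := ⟨_, rfl⟩
  have Fsc : ContDiff ℝ ∞ Fs := by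
    rw [hFs]
    exact (contDiff_id.inner ℝ contDiff_id).sub contDiff_const
  have Fs0 : Fs (u 0) = 0 := by rw [hFs]; simp only [hunit 0, sub_self]
  have Fsgr : ∀ v w, ⟪gradient Fs v, w⟫_ℝ = 2 * ⟪v, w⟫_ℝ := by
    rw [hFs]; exact gradient_sphere
  have Fsg : gradient Fs (u 0) ≠ 0 := by
    intro h0
    have h1 := Fsgr (u 0) (u 0)
    rw [h0, inner_zero_left, hunit 0] at h1
    norm_num at h1
  obtain ⟨a, ha0, X, cX, X0, Xz, ⟨P, Pc, P0, Pu⟩, Xs⟩ : ∃ a : E, a ≠ 0 ∧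
      ∃ X : (ℝ ∙ a)ᗮ → E, (∀ᶠ z in 𝓝 0, ContDiffAt ℝ ∞ X z) ∧ X 0 = p 0 ∧
      (∀ᶠ z in 𝓝 0, F 0 (X z) = 0) ∧
      (∃ P : E → (ℝ ∙ a)ᗮ, Continuous P ∧ P 0 = 0 ∧
        ∀ᶠ y in 𝓝 (p 0), F 0 y = 0 → y = X (P (y - p 0))) ∧
      (∀ᶠ z in 𝓝 0, ∀ Y, ⟪gradient (F 0) (X z), Y⟫_ℝ = 0 → ∃ ζ, fderiv ℝ X z ζ = Y) :=
    ⟨_, (dF 0).grad, chart_inf (cF 0) (dF 0).zero (dF 0).grad⟩
  obtain ⟨b, hb0, Y, cY, Y0, Yz, ⟨Q, Qc, Q0, Qu⟩, Ys⟩ : ∃ a : E, a ≠ 0 ∧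
      ∃ X : (ℝ ∙ a)ᗮ → E, (∀ᶠ z in 𝓝 0, ContDiffAt ℝ ∞ X z) ∧ X 0 = u 0 ∧
      (∀ᶠ z in 𝓝 0, Fs (X z) = 0) ∧
      (∃ P : E → (ℝ ∙ a)ᗮ, Continuous P ∧ P 0 = 0 ∧
        ∀ᶠ y in 𝓝 (u 0), Fs y = 0 → y = X (P (y - u 0))) ∧
      (∀ᶠ z in 𝓝 0, ∀ Y, ⟪gradient Fs (X z), Y⟫_ℝ = 0 → ∃ ζ, fderiv ℝ X z ζ = Y) :=
    ⟨_, Fsg, chart_inf (Eventually.of_forall fun x => Fsc.contDiffAt) Fs0 Fsg⟩
  -- the family
  obtain ⟨s, hs0, hs1⟩ : ∃ s : ℕ → ((ℝ ∙ a)ᗮ × (ℝ ∙ b)ᗮ) → E × E,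
      (s 0 = fun z => (X z.1, Y z.2)) ∧
      ∀ k, s (k + 1) = fun z => ((s k z).1 + T k (s k z) • (s k z).2,
        rf (ν (k + 1) ((s k z).1 + T k (s k z) • (s k z).2)) (s k z).2) :=
    ⟨fun k => Nat.rec (fun z => (X z.1, Y z.2)) (fun k s z => ((s z).1 + T k (s z) • (s z).2,
        rf (ν (k + 1) ((s z).1 + T k (s z) • (s z).2)) (s z).2)) k, rfl, fun k => rfl⟩
  have cs : ∀ k, (∀ᶠ z in 𝓝 0, ContDiffAt ℝ ∞ (s k) z) ∧ s k 0 = (p k, u k) := by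
    intro k
    induction k with
    | zero =>
      rw [hs0]
      refine ⟨?_, by simp only [Prod.fst_zero, Prod.snd_zero, X0, Y0]⟩
      filter_upwards [(continuous_fst.tendsto (0 : (ℝ ∙ a)ᗮ × (ℝ ∙ b)ᗮ)).eventually cX,
        (continuous_snd.tendsto (0 : (ℝ ∙ a)ᗮ × (ℝ ∙ b)ᗮ)).eventually cY] with z h1 h2
      exact (ContDiffAt.comp (g := X) (f := fun z : (ℝ ∙ a)ᗮ × (ℝ ∙ b)ᗮ => z.1) z h1
        contDiffAt_fst).prodMk (ContDiffAt.comp (g := Y)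
          (f := fun z : (ℝ ∙ a)ᗮ × (ℝ ∙ b)ᗮ => z.2) z h2 contDiffAt_snd)
    | succ k ih =>
      obtain ⟨ih1, ih2⟩ := ih
      have hst' : Tendsto (s k) (𝓝 0) (𝓝 (p k, u k)) := by
        have := ih1.self_of_nhds.continuousAt.tendsto
        rwa [ih2] at this
      have hx0 : (s k 0).1 + T k (s k 0) • (s k 0).2 = p (k + 1) := by
        rw [ih2, hT2, hpt]
      have hxt : Tendsto (fun z => (s k z).1 + T k (s k z) • (s k z).2) (𝓝 0)
          (𝓝 (p (k + 1))) := by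
        rw [← hx0]
        have hcT : ContinuousAt (fun z => T k (s k z)) 0 := by
          refine ContinuousAt.comp (g := T k) (f := s k) ?_ ih1.self_of_nhds.continuousAt
          rw [ih2]
          exact (hT1 k).self_of_nhds.continuousAt
        exact ((ih1.self_of_nhds.continuousAt.fst).add
          (hcT.smul ih1.self_of_nhds.continuousAt.snd)).tendsto
      rw [hs1]
      refine ⟨?_, ?_⟩
      · filter_upwards [ih1, hst'.eventually (hT1 k), hxt.eventually (hνi (k + 1))] with z h1 h2 h3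
        have hcT : ContDiffAt ℝ ∞ (fun z => T k (s k z)) z :=
          ContDiffAt.comp (g := T k) (f := s k) z h2 h1
        have hcx : ContDiffAt ℝ ∞ (fun z => (s k z).1 + T k (s k z) • (s k z).2) z :=
          h1.fst.add (hcT.smul h1.snd)
        have hcn : ContDiffAt ℝ ∞ (fun z => ν (k + 1) ((s k z).1 + T k (s k z) • (s k z).2)) z :=
          ContDiffAt.comp (g := ν (k + 1))
            (f := fun z => (s k z).1 + T k (s k z) • (s k z).2) z h3 hcx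
        exact hcx.prodMk (cd_rf hcn h1.snd)
      · simp only [hx0]
        rw [(hm (k + 1)).self_of_nhds.2.1, ih2, ← (hst k).1]
  have ts : ∀ k, Tendsto (s k) (𝓝 0) (𝓝 (p k, u k)) := by
    intro k
    have := (cs k).1.self_of_nhds.continuousAt.tendsto
    rwa [(cs k).2] at this
  have ts1 : ∀ k, Tendsto (fun z => (s k z).1) (𝓝 0) (𝓝 (p k)) := fun k =>
    (continuous_fst.tendsto (p k, u k)).comp (ts k)
  have zero : ∀ k, ∀ᶠ z in 𝓝 0, F k (s k z).1 = 0 := by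
    intro k
    cases k with
    | zero =>
      rw [hs0]
      exact (continuous_fst.tendsto (0 : (ℝ ∙ a)ᗮ × (ℝ ∙ b)ᗮ)).eventually Xz
    | succ k =>
      rw [hs1]
      exact (ts k).eventually (hT3 k)
  have hV : ∀ k, ∀ᶠ z in 𝓝 0, G4_V (ν k) (σ k) (F k) (fun z => (s k z).1) z := by
    intro k
    exact G4_vertex (dF k).smooth ((hνi k).self_of_nhds.of_le (by norm_cast)) (hσ k) (hm k)
      ((cs k).1.self_of_nhds.fst.of_le (by norm_cast)) (by rw [(cs k).2]) (zero k)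
  have hE : ∀ k, ∀ᶠ z in 𝓝 0, ⟪(s k z).2, (s k z).2⟫_ℝ = 1 := by
    intro k
    induction k with
    | zero =>
      rw [hs0]
      have h1 := (continuous_snd.tendsto (0 : (ℝ ∙ a)ᗮ × (ℝ ∙ b)ᗮ)).eventually Yz
      filter_upwards [h1] with z hz
      rw [hFs] at hz
      exact sub_eq_zero.1 hz
    | succ k ih =>
      filter_upwards [ih, hV (k + 1)] with z h1 h2
      have h3 := h2.nn
      rw [hs1] at h3 ⊢
      simp only at h3 ⊢
      rw [G3_rf_inner h3, h1]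
  have hcT : ∀ k, ∀ᶠ z in 𝓝 0, ContDiffAt ℝ ∞ (fun z => T k (s k z)) z := by
    intro k
    filter_upwards [(cs k).1, (ts k).eventually (hT1 k)] with z h1 h2
    exact ContDiffAt.comp (g := T k) (f := s k) z h2 h1
  have hTp : ∀ k : ℕ, ∀ᶠ z : (ℝ ∙ a)ᗮ × (ℝ ∙ b)ᗮ in 𝓝 0, True := fun _ =>
    Eventually.of_forall fun _ => trivial
  have htr : ∀ k, ∀ᶠ z in 𝓝 0, ⟪ν k (s k z).1, (s k z).2⟫_ℝ ≠ 0 := by
    intro k
    have c1 : ContinuousAt (fun z => ν k (s k z).1) 0 := by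
      refine ContinuousAt.comp (g := ν k) (f := fun z => (s k z).1) ?_
        (cs k).1.self_of_nhds.fst.continuousAt
      rw [(cs k).2]
      exact (hνi k).self_of_nhds.continuousAt
    refine (c1.inner (cs k).1.self_of_nhds.snd.continuousAt).tendsto.eventually_ne ?_
    rw [(cs k).2, (hm k).self_of_nhds.2.1]
    unfold dir
    rw [real_inner_smul_left]
    exact mul_ne_zero (inv_ne_zero (norm_ne_zero_iff.2 (dF k).grad)) (htrF k)
  obtain ⟨K, tK, htK, hK⟩ := ((cs 0).1.self_of_nhds.of_le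
    (show (1 : WithTop ℕ∞) ≤ ∞ by norm_cast)).exists_lipschitzOnWith
  have hsj : ∀ᶠ z : (ℝ ∙ a)ᗮ × (ℝ ∙ b)ᗮ in 𝓝 0,
      ((∀ W, ⟪gradient (F 0) (X z.1), W⟫_ℝ = 0 → ∃ ζ, fderiv ℝ X z.1 ζ = W) ∧
        ContDiffAt ℝ ∞ X z.1) ∧
      ((∀ W, ⟪gradient Fs (Y z.2), W⟫_ℝ = 0 → ∃ ζ, fderiv ℝ Y z.2 ζ = W) ∧
        ContDiffAt ℝ ∞ Y z.2) :=
    ((continuous_fst.tendsto (0 : (ℝ ∙ a)ᗮ × (ℝ ∙ b)ᗮ)).eventually (Xs.and cX)).and
    ((continuous_snd.tendsto (0 : (ℝ ∙ a)ᗮ × (ℝ ∙ b)ᗮ)).eventually (Ys.and cY))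
  have hld : ∀ k, ∀ᶠ z in 𝓝 0, LocalDef Ω (s k z).1 (F k) := by
    intro k
    filter_upwards [(ts1 k).eventually (localDef_of_zero (dF k)), zero k] with z h1 h2
    exact h1 h2
  have hall : ∀ᶠ z in 𝓝 0, ∀ k ∈ Set.Iic n,
      G4_V (ν k) (σ k) (F k) (fun z => (s k z).1) z ∧ ⟪(s k z).2, (s k z).2⟫_ℝ = 1 ∧
      ContDiffAt ℝ ∞ (s k) z ∧ ContDiffAt ℝ ∞ (fun z => T k (s k z)) z ∧
      True ∧ ⟪ν k (s k z).1, (s k z).2⟫_ℝ ≠ 0 ∧ LocalDef Ω (s k z).1 (F k) ∧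
      ContDiffAt ℝ ∞ (ν k) (s k z).1 := by
    rw [Filter.eventually_all_finite (Set.finite_Iic n)]
    intro k _
    exact (hV k).and ((hE k).and ((cs k).1.and ((hcT k).and ((hTp k).and ((htr k).and
      ((hld k).and ((ts1 k).eventually (hνi k))))))))
  obtain ⟨U, hU, hUo, hU0⟩ := eventually_nhds_iff.1 (hall.and (hsj.and
    (show ∀ᶠ z in 𝓝 0, z ∈ tK from htK)))
  have hUk : ∀ k ≤ n, ∀ z ∈ U, G4_V (ν k) (σ k) (F k) (fun z => (s k z).1) z ∧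
      ⟪(s k z).2, (s k z).2⟫_ℝ = 1 ∧
      ContDiffAt ℝ ∞ (s k) z ∧ ContDiffAt ℝ ∞ (fun z => T k (s k z)) z ∧
      True ∧ ⟪ν k (s k z).1, (s k z).2⟫_ℝ ≠ 0 ∧ LocalDef Ω (s k z).1 (F k) ∧
      ContDiffAt ℝ ∞ (ν k) (s k z).1 :=
    fun k hk z hz => (hU z hz).1 k hk
  have hνx : ∀ k z, ν k (s k z).1 = dir (gradient (F k) (s k z).1) := by
    intro k z; rw [hνd]
  have hsurj0 : ∀ z ∈ U, ∀ W δ, ⟪ν 0 (s 0 z).1, W⟫_ℝ = 0 → ⟪(s 0 z).2, δ⟫_ℝ = 0 →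
      ∃ ζ, fderiv ℝ (fun z => (s 0 z).1) z ζ = W ∧ fderiv ℝ (fun z => (s 0 z).2) z ζ = δ := by
    intro z hz W δ hW hδ
    obtain ⟨⟨s1, c1⟩, ⟨s2, c2⟩⟩ := (hU z hz).2.1
    have hV0 := (hUk 0 (Nat.zero_le _) z hz).1
    have hn0 : ν 0 (s 0 z).1 = dir (gradient (F 0) (s 0 z).1) := hV0.nu
    have hg0 : gradient (F 0) (s 0 z).1 ≠ 0 := hV0.g0
    rw [hn0] at hW
    unfold dir at hW
    rw [real_inner_smul_left] at hW
    have hW' := (mul_eq_zero.1 hW).resolve_left (inv_ne_zero (norm_ne_zero_iff.2 hg0))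
    rw [hs0] at hW' hδ
    simp only at hW' hδ
    obtain ⟨ζ1, hζ1⟩ := s1 W hW'
    obtain ⟨ζ2, hζ2⟩ := s2 δ (by rw [Fsgr, hδ, mul_zero])
    refine ⟨(ζ1, ζ2), ?_, ?_⟩
    · rw [hs0]
      have h1 : HasFDerivAt (fun z : (ℝ ∙ a)ᗮ × (ℝ ∙ b)ᗮ => X z.1)
          ((fderiv ℝ X z.1).comp (ContinuousLinearMap.fst ℝ _ _)) z :=
        (c1.differentiableAt (by norm_num)).hasFDerivAt.comp z hasFDerivAt_fst
      simp only
      rw [h1.fderiv]
      exact hζ1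
    · rw [hs0]
      have h1 : HasFDerivAt (fun z : (ℝ ∙ a)ᗮ × (ℝ ∙ b)ᗮ => Y z.2)
          ((fderiv ℝ Y z.2).comp (ContinuousLinearMap.snd ℝ _ _)) z :=
        (c2.differentiableAt (by norm_num)).hasFDerivAt.comp z hasFDerivAt_snd
      simp only
      rw [h1.fderiv]
      exact hζ2
  have dd1 : ∀ k ≤ n, ∀ z ∈ U, DifferentiableAt ℝ (fun z => (s k z).1) z := fun k hk z hz =>
    (hUk k hk z hz).1.dx
  have dd2 : ∀ k ≤ n, ∀ z ∈ U, DifferentiableAt ℝ (fun z => (s k z).2) z := fun k hk z hz =>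
    (hUk k hk z hz).2.2.1.snd.differentiableAt (by norm_num)
  have dd3 : ∀ k ≤ n, ∀ z ∈ U, DifferentiableAt ℝ (fun z => T k (s k z)) z := fun k hk z hz =>
    (hUk k hk z hz).2.2.2.1.differentiableAt (by norm_num)
  have hsurj : ∀ k ≤ n, ∀ z ∈ U, ∀ W δ, ⟪ν k (s k z).1, W⟫_ℝ = 0 → ⟪(s k z).2, δ⟫_ℝ = 0 →
      ∃ ζ, fderiv ℝ (fun z => (s k z).1) z ζ = W ∧ fderiv ℝ (fun z => (s k z).2) z ζ = δ := by
    intro k hk z hz
    refine surj_upto (fun k => (s k z).2) (fun k => ν k (s k z).1) (fun k => T k (s k z))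
      (fun k => σ k (s k z).1) (fun k ζ => fderiv ℝ (fun z => (s k z).1) z ζ)
      (fun k ζ => fderiv ℝ (fun z => (s k z).2) z ζ)
      (fun k ζ => fderiv ℝ (fun z => T k (s k z)) z ζ) n
      (fun k hk => (hUk k hk z hz).1.nn) (fun k hk => by rw [hs1])
      (fun k hk => (hUk k hk z hz).2.2.2.2.2.1) (fun k hk => (hUk k hk z hz).1.sym)
      (fun k hk => (hUk k hk z hz).1.Sn) (fun k hk => (hUk k hk z hz).1.tan) ?_ ?_
      (hsurj0 z hz) k hk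
    · intro k hk ζ
      exact G3_step hUo hz (dd1 k hk.le z hz) (dd2 k hk.le z hz) (dd3 k hk.le z hz)
        (fun z _ => by rw [hs1]) ζ
    · intro k hk ζ
      have hn := (hUk (k + 1) hk z hz).1.njac ζ
      have h1 : (fun z => (s (k + 1) z).2) = fun z => rf (ν (k + 1) (s (k + 1) z).1) (s k z).2 := by
        funext z; rw [hs1]
      have h2 := G3_rf_fderiv (hUk (k + 1) hk z hz).1.dn (dd2 k hk.le z hz) ζ
      rw [h1, h2, hn]
  refine ⟨a, b, {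
      U := U
      hU := hUo
      x := fun k z => (s k z).1
      e := fun k z => (s k z).2
      L := fun k z => T k (s k z)
      F := F
      cx := fun k hk z hz => (hUk k hk z hz).2.2.1.fst
      ce := fun k hk z hz => (hUk k hk z hz).2.2.1.snd
      cn := ?_
      cL := fun k hk z hz => (hUk k hk.le z hz).2.2.2.1
      df := fun k hk z hz => (hUk k hk z hz).2.2.2.2.2.2.1
      ee := fun k hk z hz => (hUk k hk z hz).2.1
      step := fun k _ z => by rw [hs1]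
      refl := fun k _ z => by rw [hs1, hνd]
      tr := fun k hk z hz => by rw [← hνx]; exact (hUk k hk z hz).2.2.2.2.2.1
      tan := fun k hk z hz => by rw [← hνx]; exact (hUk k hk z hz).1.tan
      surj := fun k hk z hz => by rw [← hνx]; exact hsurj k hk z hz }, ha0, hb0, ?_, ?_⟩
  · intro k hk z hz
    have h1 : ContDiffAt ℝ ∞ (fun z => ν k (s k z).1) z :=
      ContDiffAt.comp (g := ν k) (f := fun z => (s k z).1) z (hUk k hk z hz).2.2.2.2.2.2.2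
        (hUk k hk z hz).2.2.1.fst
    rw [hνd] at h1
    exact h1
  · exact ⟨K, hK.mono fun z hz => (hU z hz).2.2⟩
  -- nearby trajectories
  have T1 : ∀ k, Tendsto (fun w : (ℕ → E) × (ℕ → E) => w.1 k) (𝓝 (p, u)) (𝓝 (p k)) := by
    intro k
    have : Continuous (fun w : (ℕ → E) × (ℕ → E) => w.1 k) :=
      (continuous_apply k).comp continuous_fst
    exact this.tendsto (p, u)
  have T2 : ∀ k, Tendsto (fun w : (ℕ → E) × (ℕ → E) => w.2 k) (𝓝 (p, u)) (𝓝 (u k)) := by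
    intro k
    have : Continuous (fun w : (ℕ → E) × (ℕ → E) => w.2 k) :=
      (continuous_apply k).comp continuous_snd
    exact this.tendsto (p, u)
  have T3 : ∀ k, Tendsto (fun w : (ℕ → E) × (ℕ → E) => ((w.1 k, w.2 k), ⟪w.1 (k + 1) - w.1 k, w.2 k⟫_ℝ))
      (𝓝 (p, u)) (𝓝 ((p k, u k), t k)) := by
    intro k
    have h1 : Continuous (fun w : (ℕ → E) × (ℕ → E) =>
        ((w.1 k, w.2 k), ⟪w.1 (k + 1) - w.1 k, w.2 k⟫_ℝ)) := by
      have c1 : ∀ k, Continuous (fun w : (ℕ → E) × (ℕ → E) => w.1 k) := fun k =>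
        (continuous_apply k).comp continuous_fst
      have c2 : ∀ k, Continuous (fun w : (ℕ → E) × (ℕ → E) => w.2 k) := fun k =>
        (continuous_apply k).comp continuous_snd
      exact ((c1 k).prodMk (c2 k)).prodMk (((c1 (k + 1)).sub (c1 k)).inner (c2 k))
    have h2 := h1.tendsto (p, u)
    have h3 : ⟪p (k + 1) - p k, u k⟫_ℝ = t k := by
      rw [hpt k, add_sub_cancel_left, real_inner_smul_left, hunit k, mul_one]
    simp only [h3] at h2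
    exact h2
  obtain ⟨ζ, hζ⟩ : ∃ ζ : (ℕ → E) × (ℕ → E) → (ℝ ∙ a)ᗮ × (ℝ ∙ b)ᗮ, ζ = fun w =>
    (P (w.1 0 - p 0), Q (w.2 0 - u 0)) := ⟨_, rfl⟩
  have Tζ : Tendsto ζ (𝓝 (p, u)) (𝓝 0) := by
    have h1 : Tendsto (fun w : (ℕ → E) × (ℕ → E) => P (w.1 0 - p 0)) (𝓝 (p, u)) (𝓝 0) := by
      have h2 := (Pc.tendsto (p 0 - p 0)).comp ((T1 0).sub_const (p 0))
      rwa [sub_self, P0] at h2
    have h2 : Tendsto (fun w : (ℕ → E) × (ℕ → E) => Q (w.2 0 - u 0)) (𝓝 (p, u)) (𝓝 0) := by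
      have h2 := (Qc.tendsto (u 0 - u 0)).comp ((T2 0).sub_const (u 0))
      rwa [sub_self, Q0] at h2
    rw [hζ]
    exact h1.prodMk_nhds h2
  have hev : ∀ᶠ w : (ℕ → E) × (ℕ → E) in 𝓝 (p, u), ∀ k ∈ Set.Iic n,
      (F (k + 1) (w.1 k + ⟪w.1 (k + 1) - w.1 k, w.2 k⟫_ℝ • w.2 k) = 0 →
        ⟪w.1 (k + 1) - w.1 k, w.2 k⟫_ℝ = T k (w.1 k, w.2 k)) ∧
      (∀ F' : E → ℝ, LocalDef Ω (w.1 k) F' → LocalDef Ω (w.1 k) (F k)) := by
    rw [Filter.eventually_all_finite (Set.finite_Iic n)]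
    intro k _
    exact ((T3 k).eventually (hT4 k)).and ((T1 k).eventually (localDef_near (dF k)))
  filter_upwards [hev, Tζ.eventually (hUo.mem_nhds hU0), (T1 0).eventually Pu,
    (T2 0).eventually Qu] with w hw wU wP wQ hor
  have hunit' := hor.units
  have hdf : ∀ k ≤ n, LocalDef Ω (w.1 k) (F k) := fun k hk => by
    obtain ⟨F', hF', -⟩ := hor.reg k
    exact (hw k hk).2 _ hF'
  have hs : ∀ k ≤ n, s k (ζ w) = (w.1 k, w.2 k) := by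
    intro k
    induction k with
    | zero =>
      intro _
      rw [hs0, hζ]
      simp only
      rw [← wP (hdf 0 (Nat.zero_le _)).zero, ← wQ (by rw [hFs]; simp only [hunit' 0, sub_self])]
    | succ k ih =>
      intro hk
      rw [hs1]
      simp only
      rw [ih (by omega)]
      simp only
      obtain ⟨τ, e3⟩ := hor.fly k
      have e1 := hor.refl k _ (hdf (k + 1) hk)
      have e4 : ⟪w.1 (k + 1) - w.1 k, w.2 k⟫_ℝ = τ := by
        rw [e3, add_sub_cancel_left, real_inner_smul_left, hunit' k, mul_one]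
      have e5 := (hw k (by simp only [Set.mem_Iic]; omega)).1 (by
        rw [e4, ← e3]; exact (hdf (k + 1) hk).zero)
      rw [e4] at e5
      rw [← e5, ← e3, hνd, ← e1]
  refine ⟨ζ w, wU, ?_⟩
  intro k hk
  rw [hs k hk]
  exact ⟨rfl, rfl⟩

end C

end Pool.Agent.TH746.IR
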